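import Mathlib
import Pool.Agent.Lib.MP_1e3e9c_agR.XDefs
import Pool.Agent.Lib.MP_1e3e9c_agR.B5

set_option autoImplicit false

namespace Pool.Agent.Lib.MP_1e3e9c_agK

open Pool.Agent.Lib.MP_1e3e9c_agR

/-- The tuple `s` is tangent along `p`, of degree `< w_i D`. -/
def UU {k : Type} [Field k] {n : ℕ} (w : Fin (n + 1) → ℕ) (S : Set (MvPolynomial (Fin (n + 1)) k))
    (D : ℕ) (p s : Fin (n + 1) → Polynomial k) : Prop :=
  (∀ i, (s i).natDegree < w i * D) ∧ Tg S p s

/-- The tuples in `UU` have all tangent values at all points of the curve. -/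
def Vals {k : Type} [Field k] {n : ℕ} (w : Fin (n + 1) → ℕ) (S : Set (MvPolynomial (Fin (n + 1)) k))
    (D : ℕ) (p : Fin (n + 1) → Polynomial k) : Prop :=
  ∀ (a : k) (κ : Fin (n + 1) → k),
    (∀ P ∈ S, ∑ i, MvPolynomial.eval (val p a) (MvPolynomial.pderiv i P) * κ i = 0) →
    ∃ s, UU w S D p s ∧ val s a = κ

/-- The same at the point at infinity. -/
def ValsInf {k : Type} [Field k] {n : ℕ} (w : Fin (n + 1) → ℕ) (S : Set (MvPolynomial (Fin (n + 1)) k))
    (D : ℕ) (p : Fin (n + 1) → Polynomial k) : Prop :=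
  ∀ (κ : Fin (n + 1) → k),
    (∀ P ∈ S, ∑ i, MvPolynomial.eval (fun j => (p j).coeff (w j * D)) (MvPolynomial.pderiv i P) * κ i = 0) →
    ∃ s, UU w S D p s ∧ ∀ i, (s i).coeff (w i * D - 1) = κ i

/-- `v` is a smooth point of the scheme `S = 0`, which has codimension `c` there. -/
def LCI {k : Type} [Field k] {n : ℕ} (S : Set (MvPolynomial (Fin (n + 1)) k)) (c : ℕ)
    (v : Fin (n + 1) → k) : Prop :=
  ∃ P : Fin c → MvPolynomial (Fin (n + 1)) k, (∀ l, P l ∈ S) ∧
    LinearIndependent k (fun l => gr (P l) v) ∧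
    ∀ Q ∈ S, ∃ h, MvPolynomial.eval v h ≠ 0 ∧ h * Q ∈ Ideal.span (Set.range P)

variable {k : Type} [Field k] {n D : ℕ} {w : Fin (n + 1) → ℕ} {S : Set (MvPolynomial (Fin (n + 1)) k)}
  {p : Fin (n + 1) → Polynomial k}

/-- clearing the poles -/
theorem clear [IsAlgClosed k] (hV : Vals w S D p) (e : MvPolynomial (Fin (n + 1)) k → Polynomial k) :
    ∀ (m : ℕ) (δ : Polynomial k) (H : Fin (n + 1) → Polynomial k), δ ≠ 0 → δ.natDegree = m →
      (∀ P ∈ S, ∑ i, MvPolynomial.aeval p (MvPolynomial.pderiv i P) * H i = δ * e P) →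
      ∃ G : Fin (n + 1) → Polynomial k,
        ∀ P ∈ S, ∑ i, MvPolynomial.aeval p (MvPolynomial.pderiv i P) * G i = e P := by
  intro m
  induction m with
  | zero =>
    intro δ H hδ hdeg hH
    obtain ⟨d, rfl⟩ := Polynomial.natDegree_eq_zero.1 hdeg
    have hd : d ≠ 0 := fun h => hδ (by rw [h, Polynomial.C_0])
    refine ⟨fun i => Polynomial.C d⁻¹ * H i, fun P hP => ?_⟩
    have h1 : ∑ i, MvPolynomial.aeval p (MvPolynomial.pderiv i P) * (Polynomial.C d⁻¹ * H i) =
        Polynomial.C d⁻¹ * ∑ i, MvPolynomial.aeval p (MvPolynomial.pderiv i P) * H i := by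
      rw [Finset.mul_sum]
      refine Finset.sum_congr rfl fun i _ => by ring
    rw [h1, hH P hP, ← mul_assoc, ← Polynomial.C_mul, inv_mul_cancel₀ hd, Polynomial.C_1, one_mul]
  | succ m ih =>
    intro δ H hδ hdeg hH
    obtain ⟨a, ha⟩ := IsAlgClosed.exists_root δ (by
      intro h
      have h0 : δ.natDegree = 0 := Polynomial.natDegree_eq_of_degree_eq_some h
      omega)
    obtain ⟨δ', rfl⟩ := Polynomial.dvd_iff_isRoot.2 ha
    have hδ' : δ' ≠ 0 := fun h => hδ (by rw [h, mul_zero])
    have hdeg' : δ'.natDegree = m := by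
      rw [Polynomial.natDegree_mul (Polynomial.X_sub_C_ne_zero a) hδ', Polynomial.natDegree_X_sub_C] at hdeg
      omega
    obtain ⟨s, hs, hsa⟩ := hV a (val H a) (by
      intro P hP
      have h1 := congrArg (Polynomial.eval a) (hH P hP)
      rw [Polynomial.eval_finsetSum] at h1
      simp only [Polynomial.eval_mul, Polynomial.eval_sub, Polynomial.eval_X, Polynomial.eval_C,
        sub_self, zero_mul, ← eval_val] at h1
      exact h1)
    have h2 : ∀ i, ∃ h, H i - s i = (Polynomial.X - Polynomial.C a) * h := by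
      intro i
      refine Polynomial.dvd_iff_isRoot.2 ?_
      have h3 : (s i).eval a = (H i).eval a := congrFun hsa i
      rw [Polynomial.IsRoot, Polynomial.eval_sub, h3, sub_self]
    choose H' hH' using h2
    refine ih δ' H' hδ' hdeg' fun P hP => ?_
    refine mul_left_cancel₀ (Polynomial.X_sub_C_ne_zero a) ?_
    rw [← mul_assoc, ← hH P hP, Finset.mul_sum, ← sub_zero (∑ i, _ * H i), ← hs.2 P hP,
      ← Finset.sum_sub_distrib]
    refine Finset.sum_congr rfl fun i _ => ?_
    rw [← mul_sub, hH' i]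
    ring

/-- the value at `0` -/
theorem clear_zero (hV : Vals w S D p) (e : MvPolynomial (Fin (n + 1)) k → Polynomial k)
    (he : ∀ P ∈ S, (e P).eval 0 = 0) (G : Fin (n + 1) → Polynomial k)
    (hG : ∀ P ∈ S, ∑ i, MvPolynomial.aeval p (MvPolynomial.pderiv i P) * G i = e P) :
    ∃ G : Fin (n + 1) → Polynomial k, (∀ i, (G i).coeff 0 = 0) ∧
      ∀ P ∈ S, ∑ i, MvPolynomial.aeval p (MvPolynomial.pderiv i P) * G i = e P := by
  obtain ⟨s, hs, hs0⟩ := hV 0 (val G 0) (by
    intro P hP
    have h1 := congrArg (Polynomial.eval 0) (hG P hP)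
    rw [Polynomial.eval_finsetSum, he P hP] at h1
    simp only [Polynomial.eval_mul, ← eval_val] at h1
    exact h1)
  refine ⟨fun i => G i - s i, fun i => ?_, fun P hP => ?_⟩
  · have h3 : (s i).eval 0 = (G i).eval 0 := congrFun hs0 i
    rw [Polynomial.coeff_zero_eq_eval_zero, Polynomial.eval_sub, h3, sub_self]
  · rw [← hG P hP, ← sub_zero (∑ i, _ * G i), ← hs.2 P hP, ← Finset.sum_sub_distrib]
    refine Finset.sum_congr rfl fun i _ => by rw [mul_sub]

/-- the leading coefficients -/
theorem lead_coeff {f : Fin (n + 1) → Polynomial k} (hf : ∀ i, (f i).natDegree ≤ w i * D) {m : ℕ}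
    {F : MvPolynomial (Fin (n + 1)) k} (hF : F.IsWeightedHomogeneous w m) :
    (MvPolynomial.aeval f F).coeff (m * D) =
      MvPolynomial.eval (fun i => (f i).coeff (w i * D)) F := by
  rw [MvPolynomial.aeval_def, MvPolynomial.eval₂_eq', MvPolynomial.eval_eq',
    Polynomial.finsetSum_coeff]
  refine Finset.sum_congr rfl fun α hα => ?_
  rw [MvPolynomial.mem_support_iff] at hα
  have h1 : ∑ i, α i * (w i * D) = m * D := by
    have h2 := hF hα
    rw [Finsupp.weight_apply, Finsupp.sum_fintype _ _ (fun i => by rw [zero_smul])] at h2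
    rw [← h2, Finset.sum_mul]
    refine Finset.sum_congr rfl fun i _ => ?_
    rw [smul_eq_mul, mul_assoc]
  rw [Polynomial.algebraMap_apply, Polynomial.coeff_C_mul, ← h1]
  have h3 : ∀ T : Finset (Fin (n + 1)), (∏ i ∈ T, f i ^ α i).natDegree ≤ ∑ i ∈ T, α i * (w i * D) ∧
      (∏ i ∈ T, f i ^ α i).coeff (∑ i ∈ T, α i * (w i * D)) =
        ∏ i ∈ T, (f i).coeff (w i * D) ^ α i := by
    intro T
    induction T using Finset.induction_on with
    | empty => simp
    | insert a T ha ih =>
      obtain ⟨ih1, ih2⟩ := ih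
      have h1 : (f a ^ α a).natDegree ≤ α a * (w a * D) :=
        Polynomial.natDegree_pow_le.trans (Nat.mul_le_mul_left _ (hf a))
      rw [Finset.prod_insert ha, Finset.sum_insert ha, Finset.prod_insert ha]
      refine ⟨Polynomial.natDegree_mul_le.trans (Nat.add_le_add h1 ih1), ?_⟩
      rw [Polynomial.coeff_mul_add_eq_of_natDegree_le h1 ih1, ih2, Polynomial.coeff_pow_of_natDegree_le (hf a)]
  rw [(h3 Finset.univ).2]
  rfl

/-- the derivatives are weighted homogeneous -/
theorem pderiv_hom {m : ℕ} {F : MvPolynomial (Fin (n + 1)) k} (hF : F.IsWeightedHomogeneous w m)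
    (i : Fin (n + 1)) : (w i ≤ m ∧ (MvPolynomial.pderiv i F).IsWeightedHomogeneous w (m - w i)) ∨
      MvPolynomial.pderiv i F = 0 := by
  by_cases h : w i ≤ m
  · left
    refine ⟨h, ?_⟩
    intro α hα
    have h1 : F.coeff (α + Finsupp.single i 1) ≠ 0 := by
      intro h2
      apply hα
      rw [MvPolynomial.coeff_pderiv, h2, zero_mul]
    have h2 := hF h1
    rw [map_add, Finsupp.weight_single] at h2
    simp only [smul_eq_mul, one_mul] at h2
    omega
  · right
    ext α
    rw [MvPolynomial.coeff_zero, MvPolynomial.coeff_pderiv]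
    by_contra h3
    have h1 : F.coeff (α + Finsupp.single i 1) ≠ 0 := left_ne_zero_of_mul h3
    have h2 := hF h1
    rw [map_add, Finsupp.weight_single] at h2
    simp only [smul_eq_mul, one_mul] at h2
    omega

/-- reduction of the degree -/
theorem clear_inf (hD : 0 < D) (hw : ∀ i, 0 < w i) (hS : ∀ P ∈ S, ∃ m, P.IsWeightedHomogeneous w m)
    (hp : ∀ i, (p i).natDegree ≤ w i * D) (hV : ValsInf w S D p)
    (e : MvPolynomial (Fin (n + 1)) k → Polynomial k)
    (he : ∀ P ∈ S, ∀ m, P.IsWeightedHomogeneous w m → (e P).natDegree ≤ m * D) :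
    ∀ (r : ℕ) (G : Fin (n + 1) → Polynomial k), (∀ i, (G i).natDegree ≤ w i * D + r) →
      (∀ i, (G i).coeff 0 = 0) →
      (∀ P ∈ S, ∑ i, MvPolynomial.aeval p (MvPolynomial.pderiv i P) * G i = e P) →
      ∃ G : Fin (n + 1) → Polynomial k, (∀ i, (G i).natDegree ≤ w i * D) ∧ (∀ i, (G i).coeff 0 = 0) ∧
        ∀ P ∈ S, ∑ i, MvPolynomial.aeval p (MvPolynomial.pderiv i P) * G i = e P := by
  intro r
  induction r with
  | zero =>
    intro G h1 h2 h3
    exact ⟨G, h1, h2, h3⟩
  | succ r ih =>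
    intro G h1 h2 h3
    obtain ⟨s, hs, hsκ⟩ := hV (fun i => (G i).coeff (w i * D + (r + 1))) (by
      intro P hP
      obtain ⟨m, hm⟩ := hS P hP
      have h4 := congrArg (fun f => Polynomial.coeff f (m * D + (r + 1))) (h3 P hP)
      simp only [Polynomial.finsetSum_coeff] at h4
      have h5 : (e P).coeff (m * D + (r + 1)) = 0 :=
        Polynomial.coeff_eq_zero_of_natDegree_lt (lt_of_le_of_lt (he P hP m hm) (by omega))
      rw [h5] at h4
      rw [← h4]
      refine Finset.sum_congr rfl fun i _ => ?_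
      rcases pderiv_hom hm i with ⟨hwm, hh⟩ | hh
      · rw [← lead_coeff hp hh]
        have h6 : m * D + (r + 1) = (m - w i) * D + (w i * D + (r + 1)) := by
          have h7 : m * D = (m - w i) * D + w i * D := by
            rw [← Nat.add_mul, Nat.sub_add_cancel hwm]
          omega
        rw [h6]
        exact (Polynomial.coeff_mul_add_eq_of_natDegree_le (natDegree_le hp hh) (h1 i)).symm
      · rw [hh]
        simp)
    have hwD : ∀ i, 0 < w i * D := fun i => Nat.mul_pos (hw i) hD
    refine ih (fun i => G i - Polynomial.X ^ (r + 2) * s i) (fun i => ?_) (fun i => ?_) (fun P hP => ?_)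
    · rw [Polynomial.natDegree_le_iff_coeff_eq_zero]
      intro l hl
      rw [Polynomial.coeff_sub]
      have hwi := hwD i
      rcases Nat.lt_or_ge (w i * D + (r + 1)) l with h7 | h7
      · rw [Polynomial.coeff_eq_zero_of_natDegree_lt (lt_of_le_of_lt (h1 i) h7), zero_sub, neg_eq_zero]
        refine Polynomial.coeff_eq_zero_of_natDegree_lt ?_
        refine lt_of_le_of_lt Polynomial.natDegree_mul_le ?_
        rw [Polynomial.natDegree_X_pow]
        have := hs.1 i
        omega
      · have h8 : l = w i * D - 1 + (r + 2) := by omega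
        have h9 : l = w i * D + (r + 1) := by omega
        have h10 : (Polynomial.X ^ (r + 2) * s i).coeff l = (s i).coeff (w i * D - 1) := by
          rw [h8, Polynomial.coeff_X_pow_mul]
        rw [h10, hsκ i, h9, sub_self]
    · rw [Polynomial.coeff_sub, h2 i, zero_sub, neg_eq_zero, Polynomial.mul_coeff_zero,
        Polynomial.coeff_X_pow, if_neg (by omega), zero_mul]
    · rw [← h3 P hP, ← sub_zero (∑ i, _ * G i),
        ← mul_zero (Polynomial.X ^ (r + 2) : Polynomial k), ← hs.2 P hP, Finset.mul_sum,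
        ← Finset.sum_sub_distrib]
      refine Finset.sum_congr rfl fun i _ => ?_
      ring

end Pool.Agent.Lib.MP_1e3e9c_agK
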