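import Mathlib
import Pool.Agent.Lib.MP_1e3e9c_agK.KC

set_option autoImplicit false

namespace Pool.Agent.Lib.MP_1e3e9c_agK

open Pool.Agent.Lib.MP_1e3e9c_agR

variable {k : Type} [Field k] {n D : ℕ} {w : Fin (n + 1) → ℕ} {S : Set (MvPolynomial (Fin (n + 1)) k)}
  {p : Fin (n + 1) → Polynomial k}

/-- all coefficients have degree `≤ M` -/
def Dg (M : ℕ) (g : PowerSeries (Polynomial k)) : Prop := ∀ j, (PowerSeries.coeff j g).natDegree ≤ M

theorem Dg_mul {M M' : ℕ} {g g' : PowerSeries (Polynomial k)} (h : Dg M g) (h' : Dg M' g') :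
    Dg (M + M') (g * g') := by
  intro j
  rw [PowerSeries.coeff_mul]
  refine Polynomial.natDegree_sum_le_of_forall_le _ _ fun x _ => ?_
  exact Polynomial.natDegree_mul_le.trans (Nat.add_le_add (h _) (h' _))

theorem Dg_one : Dg 0 (1 : PowerSeries (Polynomial k)) := by
  intro j
  rw [PowerSeries.coeff_one]
  split_ifs <;> simp

theorem Dg_pow {M : ℕ} {g : PowerSeries (Polynomial k)} (h : Dg M g) (a : ℕ) : Dg (a * M) (g ^ a) := by
  induction a with
  | zero =>
    rw [zero_mul, pow_zero]
    exact Dg_one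
  | succ a ih =>
    rw [pow_succ, Nat.add_mul, one_mul]
    exact Dg_mul ih h

theorem Dg_prod {g : Fin (n + 1) → PowerSeries (Polynomial k)} {M : Fin (n + 1) → ℕ}
    (h : ∀ i, Dg (M i) (g i)) (T : Finset (Fin (n + 1))) : Dg (∑ i ∈ T, M i) (∏ i ∈ T, g i) := by
  induction T using Finset.induction_on with
  | empty =>
    rw [Finset.sum_empty, Finset.prod_empty]
    exact Dg_one
  | insert a T ha ih =>
    rw [Finset.sum_insert ha, Finset.prod_insert ha]
    exact Dg_mul (h a) ih

theorem Dg_C (c : k) : Dg 0 (algebraMap k (PowerSeries (Polynomial k)) c) := by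
  intro j
  rw [PowerSeries.algebraMap_apply, PowerSeries.coeff_C]
  split_ifs <;> simp

theorem Dg_aeval {f : Fin (n + 1) → PowerSeries (Polynomial k)} (hf : ∀ i, Dg (w i * D) (f i)) {m : ℕ}
    {P : MvPolynomial (Fin (n + 1)) k} (hP : P.IsWeightedHomogeneous w m) :
    Dg (m * D) (MvPolynomial.aeval f P) := by
  intro j
  rw [MvPolynomial.aeval_def, MvPolynomial.eval₂_eq', map_sum]
  refine Polynomial.natDegree_sum_le_of_forall_le _ _ fun α hα => ?_
  rw [MvPolynomial.mem_support_iff] at hα
  have h1 : ∑ i, α i * (w i * D) = m * D := by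
    have h2 := hP hα
    rw [Finsupp.weight_apply, Finsupp.sum_fintype _ _ (fun i => by rw [zero_smul])] at h2
    rw [← h2, Finset.sum_mul]
    refine Finset.sum_congr rfl fun i _ => ?_
    rw [smul_eq_mul, mul_assoc]
  have h3 := Dg_mul (Dg_C (P.coeff α)) (Dg_prod (fun i => Dg_pow (hf i) (α i)) Finset.univ) j
  rw [zero_add, h1] at h3
  exact h3

theorem aeval_C {f : Fin (n + 1) → PowerSeries (Polynomial k)} {v : Fin (n + 1) → k}
    (hf : ∀ i, PowerSeries.map (Polynomial.evalRingHom 0) (f i) = PowerSeries.C (v i))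
    (P : MvPolynomial (Fin (n + 1)) k) :
    PowerSeries.map (Polynomial.evalRingHom 0) (MvPolynomial.aeval f P) =
      PowerSeries.C (MvPolynomial.eval v P) := by
  induction P using MvPolynomial.induction_on with
  | C a =>
    rw [MvPolynomial.aeval_C, MvPolynomial.eval_C, PowerSeries.algebraMap_apply, PowerSeries.map_C]
    simp
  | add P Q hP hQ => rw [map_add, map_add, map_add, map_add, hP, hQ]
  | mul_X P i hP => rw [map_mul, map_mul, map_mul, map_mul, hP, MvPolynomial.aeval_X, MvPolynomial.eval_X, hf i]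

theorem coeff_zero_aeval {f : Fin (n + 1) → PowerSeries (Polynomial k)}
    (hf : ∀ i, PowerSeries.coeff 0 (f i) = p i) (P : MvPolynomial (Fin (n + 1)) k) :
    PowerSeries.coeff 0 (MvPolynomial.aeval f P) = MvPolynomial.aeval p P := by
  induction P using MvPolynomial.induction_on with
  | C a =>
    rw [MvPolynomial.aeval_C, MvPolynomial.aeval_C, PowerSeries.algebraMap_apply,
      PowerSeries.coeff_zero_C]
  | add P Q hP hQ => rw [map_add, map_add, map_add, hP, hQ]
  | mul_X P i hP =>
    have hf' : PowerSeries.constantCoeff (f i) = p i := by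
      rw [← hf i, PowerSeries.coeff_zero_eq_constantCoeff]
    rw [PowerSeries.coeff_zero_eq_constantCoeff] at hP ⊢
    rw [map_mul, map_mul, map_mul, hP, MvPolynomial.aeval_X, MvPolynomial.aeval_X, hf']

theorem dvd_sub {f g : Fin (n + 1) → PowerSeries (Polynomial k)} {m : ℕ}
    (h : ∀ i, (PowerSeries.X : PowerSeries (Polynomial k)) ^ m ∣ f i - g i)
    (P : MvPolynomial (Fin (n + 1)) k) :
    (PowerSeries.X : PowerSeries (Polynomial k)) ^ m ∣ MvPolynomial.aeval f P - MvPolynomial.aeval g P := by
  induction P using MvPolynomial.induction_on with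
  | C a =>
    rw [MvPolynomial.aeval_C, MvPolynomial.aeval_C, sub_self]
    exact dvd_zero _
  | add P Q hP hQ =>
    rw [map_add, map_add, add_sub_add_comm]
    exact dvd_add hP hQ
  | mul_X P i hP =>
    rw [map_mul, map_mul, MvPolynomial.aeval_X, MvPolynomial.aeval_X]
    obtain ⟨a, ha⟩ := hP
    obtain ⟨b, hb⟩ := h i
    refine ⟨a * f i + MvPolynomial.aeval g P * b, ?_⟩
    linear_combination (f i) * ha + (MvPolynomial.aeval g P) * hb

theorem taylor (f h : Fin (n + 1) → PowerSeries (Polynomial k)) (m : ℕ)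
    (P : MvPolynomial (Fin (n + 1)) k) :
    (PowerSeries.X : PowerSeries (Polynomial k)) ^ (m + 2) ∣
      MvPolynomial.aeval (fun i => f i + PowerSeries.X ^ (m + 1) * h i) P - MvPolynomial.aeval f P -
        PowerSeries.X ^ (m + 1) * ∑ i, MvPolynomial.aeval f (MvPolynomial.pderiv i P) * h i := by
  induction P using MvPolynomial.induction_on with
  | C a =>
    simp
  | add P Q hP hQ =>
    obtain ⟨a, ha⟩ := hP
    obtain ⟨b, hb⟩ := hQ
    refine ⟨a + b, ?_⟩
    simp only [map_add, add_mul, Finset.sum_add_distrib]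
    linear_combination ha + hb
  | mul_X P i₀ hP =>
    obtain ⟨a, ha⟩ := hP
    have h1 : ∑ i, MvPolynomial.aeval f (MvPolynomial.pderiv i (P * MvPolynomial.X i₀)) * h i =
        (∑ i, MvPolynomial.aeval f (MvPolynomial.pderiv i P) * h i) * f i₀ +
          MvPolynomial.aeval f P * h i₀ := by
      rw [Finset.sum_mul]
      have h2 : MvPolynomial.aeval f P * h i₀ =
          ∑ i, MvPolynomial.aeval f P * MvPolynomial.aeval f (MvPolynomial.pderiv i (MvPolynomial.X i₀ : MvPolynomial (Fin (n + 1)) k)) * h i := by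
        rw [Finset.sum_eq_single i₀]
        · simp
        · intro i _ hi
          rw [MvPolynomial.pderiv_X_of_ne hi.symm]
          simp
        · intro h
          exact absurd (Finset.mem_univ _) h
      rw [h2, ← Finset.sum_add_distrib]
      refine Finset.sum_congr rfl fun i _ => ?_
      rw [MvPolynomial.pderiv_mul, map_add, map_mul, map_mul, MvPolynomial.aeval_X]
      ring
    rw [h1, map_mul, map_mul, MvPolynomial.aeval_X, MvPolynomial.aeval_X]
    refine ⟨a * (f i₀ + PowerSeries.X ^ (m + 1) * h i₀) +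
      PowerSeries.X ^ m * (∑ i, MvPolynomial.aeval f (MvPolynomial.pderiv i P) * h i) * h i₀, ?_⟩
    linear_combination (f i₀ + PowerSeries.X ^ (m + 1) * h i₀) * ha

end Pool.Agent.Lib.MP_1e3e9c_agK
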