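import Mathlib
import Pool.Agent.Lib.MP_1e3e9c_agK.KD

set_option autoImplicit false

namespace Pool.Agent.Lib.MP_1e3e9c_agK

open Pool.Agent.Lib.MP_1e3e9c_agR

/-- a nonzero maximal minor -/
theorem exists_minor {F : Type} [Field F] {n c : ℕ} (v : Fin c → Fin n → F)
    (h : LinearIndependent F v) : ∃ I : Fin c → Fin n, (Matrix.of fun a b => v a (I b)).det ≠ 0 := by
  classical
  obtain ⟨R, hR⟩ : ∃ R : Fin n → Fin c → F, R = fun i b => v b i := ⟨_, rfl⟩
  have hker : LinearMap.ker (Fintype.linearCombination F v) = ⊥ := by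
    rw [LinearMap.ker_eq_bot]
    exact linearIndependent_iff_injective_fintypeLinearCombination.1 h
  obtain ⟨g, hg⟩ := LinearMap.exists_leftInverse_of_injective _ hker
  have hgv : ∀ b, g (v b) = Pi.single b 1 := by
    intro b
    have h2 := LinearMap.congr_fun hg (Pi.single b 1)
    rw [LinearMap.comp_apply, Fintype.linearCombination_apply_single, one_smul] at h2
    exact h2
  have hspan : (⊤ : Submodule F (Fin c → F)) ≤ Submodule.span F (Set.range R) := by
    rw [← (Pi.basisFun F (Fin c)).span_eq, Submodule.span_le]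
    rintro _ ⟨b, rfl⟩
    have h1 : (Pi.basisFun F (Fin c)) b = ∑ i, (g (fun j => if i = j then 1 else 0) b) • R i := by
      funext b'
      have h2 := congrFun (hgv b') b
      rw [LinearMap.pi_apply_eq_sum_univ g (v b'), Finset.sum_apply] at h2
      rw [Pi.basisFun_apply, Finset.sum_apply]
      have h3 : ∑ i, (g (fun j => if i = j then 1 else 0) b • R i) b' =
          ∑ c, (v b' c • g fun j => if c = j then 1 else 0) b := by
        refine Finset.sum_congr rfl fun i _ => ?_
        rw [Pi.smul_apply, Pi.smul_apply, smul_eq_mul, smul_eq_mul, hR, mul_comm]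
      rw [h3, h2, Pi.single_apply, Pi.single_apply]
      by_cases hb : b = b'
      · rw [if_pos hb, if_pos hb.symm]
      · rw [if_neg hb, if_neg (fun h5 => hb h5.symm)]
    rw [h1]
    exact Submodule.sum_mem _ fun i _ => Submodule.smul_mem _ _ (Submodule.subset_span ⟨i, rfl⟩)
  obtain ⟨κ, a, ha, hsp, hli⟩ := exists_linearIndependent' F R
  have hfin : Finite κ := Finite.of_injective a ha
  have hft := Fintype.ofFinite κ
  have hcard : Fintype.card κ = c := by
    have h1 := Module.finrank_eq_card_basis (Module.Basis.mk hli (by rw [hsp]; exact hspan))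
    rw [Module.finrank_fin_fun] at h1
    exact h1.symm
  let e : Fin c ≃ κ := (Fintype.equivFinOfCardEq hcard).symm
  refine ⟨fun x => a (e x), ?_⟩
  have h3 : LinearIndependent F (Matrix.of fun x b => v b (a (e x)) : Matrix (Fin c) (Fin c) F).row := by
    have h4 := hli.comp e e.injective
    rw [hR] at h4
    exact h4
  have h5 := (Matrix.isUnit_iff_isUnit_det _).1 (Matrix.linearIndependent_rows_iff_isUnit.1 h3)
  have h6 : (Matrix.of fun x y => v x (a (e y)) : Matrix (Fin c) (Fin c) F) =
      (Matrix.of fun x b => v b (a (e x)) : Matrix (Fin c) (Fin c) F).transpose := rfl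
  rw [h6, Matrix.det_transpose]
  exact h5.ne_zero

variable {k : Type} [Field k] {n D : ℕ} {w : Fin (n + 1) → ℕ} {S : Set (MvPolynomial (Fin (n + 1)) k)}
  {p : Fin (n + 1) → Polynomial k}

theorem coeff_mul_dvd (a : PowerSeries (Polynomial k)) {b : PowerSeries (Polynomial k)} {m : ℕ}
    (h : (PowerSeries.X : PowerSeries (Polynomial k)) ^ m ∣ b) :
    PowerSeries.coeff m (a * b) = PowerSeries.coeff 0 a * PowerSeries.coeff m b := by
  obtain ⟨c, rfl⟩ := h
  have h1 : a * (PowerSeries.X ^ m * c) = PowerSeries.X ^ m * (a * c) := by ring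
  rw [h1]
  have h2 : ∀ g : PowerSeries (Polynomial k), PowerSeries.coeff m (PowerSeries.X ^ m * g) =
      PowerSeries.coeff 0 g := by
    intro g
    have h3 := PowerSeries.coeff_X_pow_mul g m 0
    rwa [zero_add] at h3
  rw [h2, h2]
  simp only [PowerSeries.coeff_zero_eq_constantCoeff, map_mul]

theorem local_sol {c : ℕ} (hL : LCI S c (val p 0)) (hpS : ∀ P ∈ S, MvPolynomial.aeval p P = 0)
    {T : Fin (n + 1) → PowerSeries (Polynomial k)} (hT : ∀ i, PowerSeries.coeff 0 (T i) = p i) {m : ℕ}
    (hTS : ∀ P ∈ S, (PowerSeries.X : PowerSeries (Polynomial k)) ^ m ∣ MvPolynomial.aeval T P) :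
    ∃ (δ : Polynomial k) (H : Fin (n + 1) → Polynomial k), δ ≠ 0 ∧
      ∀ P ∈ S, ∑ i, MvPolynomial.aeval p (MvPolynomial.pderiv i P) * H i =
        δ * (-PowerSeries.coeff m (MvPolynomial.aeval T P)) := by
  classical
  obtain ⟨P, hPS, hli, hQ⟩ := hL
  obtain ⟨I, hI⟩ := exists_minor _ hli
  obtain ⟨J, hJ⟩ : ∃ J : Matrix (Fin c) (Fin c) (Polynomial k),
    J = Matrix.of fun a b => MvPolynomial.aeval p (MvPolynomial.pderiv (I b) (P a)) := ⟨_, rfl⟩
  obtain ⟨e, he⟩ : ∃ e : Fin c → Polynomial k, e = fun l => -PowerSeries.coeff m (MvPolynomial.aeval T (P l)) := ⟨_, rfl⟩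
  have hδ : J.det.eval 0 ≠ 0 := by
    have h1 : J.det.eval 0 = (Matrix.of fun a b => gr (P a) (val p 0) (I b)).det := by
      rw [← Polynomial.coe_evalRingHom, RingHom.map_det]
      congr 1
      ext a b
      rw [hJ]
      show Polynomial.eval 0 (MvPolynomial.aeval p (MvPolynomial.pderiv (I b) (P a))) = _
      rw [← eval_val]
      rfl
    rw [h1]
    exact hI
  have hδ0 : J.det ≠ 0 := fun h => hδ (by rw [h, Polynomial.eval_zero])
  obtain ⟨y, hy⟩ : ∃ y : Fin c → Polynomial k, y = J.adjugate.mulVec e := ⟨_, rfl⟩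
  have hJy : ∀ l, ∑ a, MvPolynomial.aeval p (MvPolynomial.pderiv (I a) (P l)) * y a = J.det * e l := by
    intro l
    have h1 : J.mulVec y = J.det • e := by
      rw [hy, Matrix.mulVec_mulVec, Matrix.mul_adjugate, Matrix.smul_mulVec, Matrix.one_mulVec]
    have h2 := congrFun h1 l
    rw [Pi.smul_apply, smul_eq_mul] at h2
    rw [← h2, hJ]
    rfl
  obtain ⟨H, hH⟩ : ∃ H : Fin (n + 1) → Polynomial k, H = fun i => ∑ a, if I a = i then y a else 0 := ⟨_, rfl⟩
  have hsum : ∀ Q : MvPolynomial (Fin (n + 1)) k, ∑ i, MvPolynomial.aeval p (MvPolynomial.pderiv i Q) * H i =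
      ∑ a, MvPolynomial.aeval p (MvPolynomial.pderiv (I a) Q) * y a := by
    intro Q
    rw [hH]
    simp only [Finset.mul_sum]
    rw [Finset.sum_comm]
    refine Finset.sum_congr rfl fun a _ => ?_
    simp only [mul_ite, mul_zero]
    rw [Finset.sum_ite_eq, if_pos (Finset.mem_univ _)]
  refine ⟨J.det, H, hδ0, fun Q hQS => ?_⟩
  obtain ⟨h, hh, hmem⟩ := hQ Q hQS
  obtain ⟨A, hA⟩ := Ideal.mem_span_range_iff_exists_fun.1 hmem
  have hh0 : MvPolynomial.aeval p h ≠ 0 := by
    intro h1
    apply hh
    rw [eval_val, h1, Polynomial.eval_zero]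
  refine mul_left_cancel₀ hh0 ?_
  -- derivatives
  have h1 : ∀ i, MvPolynomial.aeval p h * MvPolynomial.aeval p (MvPolynomial.pderiv i Q) =
      ∑ l, MvPolynomial.aeval p (A l) * MvPolynomial.aeval p (MvPolynomial.pderiv i (P l)) := by
    intro i
    have h2 := congrArg (fun g => MvPolynomial.aeval p (MvPolynomial.pderiv i g)) hA
    simp only [map_sum, MvPolynomial.pderiv_mul, map_add, map_mul, hpS _ (hPS _), hpS Q hQS, mul_zero,
      zero_add] at h2
    exact h2.symm
  -- errors
  have h3 : MvPolynomial.aeval p h * PowerSeries.coeff m (MvPolynomial.aeval T Q) =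
      ∑ l, MvPolynomial.aeval p (A l) * PowerSeries.coeff m (MvPolynomial.aeval T (P l)) := by
    have h4 := congrArg (fun g => PowerSeries.coeff m (MvPolynomial.aeval T g)) hA
    simp only [map_sum, map_mul] at h4
    rw [coeff_mul_dvd _ (hTS Q hQS), coeff_zero_aeval hT] at h4
    rw [← h4]
    refine Finset.sum_congr rfl fun l _ => ?_
    rw [coeff_mul_dvd _ (hTS _ (hPS l)), coeff_zero_aeval hT]
  calc MvPolynomial.aeval p h * ∑ i, MvPolynomial.aeval p (MvPolynomial.pderiv i Q) * H i
      = ∑ i, (MvPolynomial.aeval p h * MvPolynomial.aeval p (MvPolynomial.pderiv i Q)) * H i := by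
        rw [Finset.mul_sum]
        refine Finset.sum_congr rfl fun i _ => by ring
    _ = ∑ l, MvPolynomial.aeval p (A l) * ∑ i, MvPolynomial.aeval p (MvPolynomial.pderiv i (P l)) * H i := by
        simp only [h1, Finset.sum_mul, Finset.mul_sum]
        rw [Finset.sum_comm]
        refine Finset.sum_congr rfl fun l _ => Finset.sum_congr rfl fun i _ => by ring
    _ = ∑ l, MvPolynomial.aeval p (A l) * (J.det * e l) := by
        refine Finset.sum_congr rfl fun l _ => ?_
        rw [hsum, hJy]
    _ = J.det * -(∑ l, MvPolynomial.aeval p (A l) * PowerSeries.coeff m (MvPolynomial.aeval T (P l))) := by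
        rw [he, ← Finset.sum_neg_distrib, Finset.mul_sum]
        refine Finset.sum_congr rfl fun l _ => by ring
    _ = MvPolynomial.aeval p h * (J.det * -PowerSeries.coeff m (MvPolynomial.aeval T Q)) := by
        rw [← h3]
        ring

end Pool.Agent.Lib.MP_1e3e9c_agK
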