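import Mathlib
import Pool.Agent.Lib.MP_1e3e9c_agK.KE

set_option autoImplicit false

namespace Pool.Agent.Lib.MP_1e3e9c_agK

open Pool.Agent.Lib.MP_1e3e9c_agR

variable {k : Type} [Field k] {n D : ℕ} {w : Fin (n + 1) → ℕ} {S : Set (MvPolynomial (Fin (n + 1)) k)}
  {p : Fin (n + 1) → Polynomial k}

/-- an arc with the first order part `t u`, up to order `m` -/
structure Ar (w : Fin (n + 1) → ℕ) (S : Set (MvPolynomial (Fin (n + 1)) k)) (D : ℕ)
    (p u : Fin (n + 1) → Polynomial k) (m : ℕ) (T : Fin (n + 1) → PowerSeries (Polynomial k)) : Prop where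
  zero : ∀ i, PowerSeries.coeff 0 (T i) = p i
  one : ∀ i, PowerSeries.coeff 1 (T i) = Polynomial.X * u i
  deg : ∀ i, Dg (w i * D) (T i)
  van : ∀ i j, 1 ≤ j → (PowerSeries.coeff j (T i)).coeff 0 = 0
  eqs : ∀ P ∈ S, (PowerSeries.X : PowerSeries (Polynomial k)) ^ m ∣ MvPolynomial.aeval T P

theorem aeval_Cp (p : Fin (n + 1) → Polynomial k) (P : MvPolynomial (Fin (n + 1)) k) :
    MvPolynomial.aeval (fun i => (PowerSeries.C (p i) : PowerSeries (Polynomial k))) P =
      PowerSeries.C (MvPolynomial.aeval p P) := by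
  induction P using MvPolynomial.induction_on with
  | C a =>
    rw [MvPolynomial.aeval_C, MvPolynomial.aeval_C, PowerSeries.algebraMap_apply]
  | add P Q hP hQ => rw [map_add, map_add, map_add, hP, hQ]
  | mul_X P i hP => rw [map_mul, map_mul, map_mul, hP, MvPolynomial.aeval_X, MvPolynomial.aeval_X]

theorem Ar_start (hp : ∀ i, (p i).natDegree ≤ w i * D)
    (hpS : ∀ P ∈ S, MvPolynomial.aeval p P = 0) {u : Fin (n + 1) → Polynomial k} (hu : UU w S D p u) :
    Ar w S D p u 2 (fun i => PowerSeries.C (p i) + PowerSeries.X ^ (0 + 1) * PowerSeries.C (Polynomial.X * u i)) := by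
  have hc : ∀ i j, PowerSeries.coeff j (PowerSeries.C (p i) + PowerSeries.X ^ (0 + 1) *
      PowerSeries.C (Polynomial.X * u i) : PowerSeries (Polynomial k)) =
      (if j = 0 then p i else 0) + (if j = 1 then Polynomial.X * u i else 0) := by
    intro i j
    rw [map_add, PowerSeries.coeff_C, zero_add, pow_one]
    congr 1
    rcases j with _ | j
    · rw [if_neg (by omega)]
      simp
    · rw [PowerSeries.coeff_succ_X_mul, PowerSeries.coeff_C]
      by_cases h : j = 0
      · rw [if_pos h, if_pos (by omega)]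
      · rw [if_neg h, if_neg (by omega)]
  refine ⟨fun i => ?_, fun i => ?_, fun i j => ?_, fun i j hj => ?_, fun P hP => ?_⟩
  · rw [hc]
    simp
  · rw [hc]
    simp
  · rw [hc]
    split_ifs with h1 h2 h2
    · omega
    · rw [add_zero]
      exact hp i
    · rw [zero_add]
      refine Polynomial.natDegree_mul_le.trans ?_
      rw [Polynomial.natDegree_X]
      have := hu.1 i
      omega
    · simp
  · rw [hc, if_neg (by omega), zero_add]
    split_ifs
    · simp
    · simp
  · obtain ⟨c, hc'⟩ := taylor (fun i => (PowerSeries.C (p i) : PowerSeries (Polynomial k)))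
      (fun i => PowerSeries.C (Polynomial.X * u i)) 0 P
    have h1 : ∑ i, MvPolynomial.aeval (fun i => (PowerSeries.C (p i) : PowerSeries (Polynomial k)))
        (MvPolynomial.pderiv i P) * PowerSeries.C (Polynomial.X * u i) = 0 := by
      have h2 : (PowerSeries.C (Polynomial.X * ∑ i, MvPolynomial.aeval p (MvPolynomial.pderiv i P) * u i) :
          PowerSeries (Polynomial k)) = 0 := by
        rw [hu.2 P hP, mul_zero, map_zero]
      rw [← h2, Finset.mul_sum, map_sum]
      refine Finset.sum_congr rfl fun i _ => ?_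
      rw [aeval_Cp, ← map_mul]
      congr 1
      ring
    rw [h1, aeval_Cp, hpS P hP, map_zero, mul_zero, sub_zero, sub_zero] at hc'
    exact ⟨c, hc'⟩

theorem Ar_step [IsAlgClosed k] {c : ℕ} (hw : ∀ i, 0 < w i) (hD : 0 < D)
    (hS : ∀ P ∈ S, ∃ m, P.IsWeightedHomogeneous w m)
    (hp : ∀ i, (p i).natDegree ≤ w i * D)
    (hpS : ∀ P ∈ S, MvPolynomial.aeval p P = 0) (hL : LCI S c (val p 0)) (hV : Vals w S D p)
    (hV' : ValsInf w S D p) {u : Fin (n + 1) → Polynomial k} {m : ℕ}
    {T : Fin (n + 1) → PowerSeries (Polynomial k)} (hT : Ar w S D p u (m + 2) T) :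
    ∃ G : Fin (n + 1) → Polynomial k, Ar w S D p u (m + 3)
      (fun i => T i + PowerSeries.X ^ (m + 2) * PowerSeries.C (G i)) := by
  obtain ⟨δ, H, hδ, hH⟩ := local_sol hL hpS hT.zero hT.eqs
  obtain ⟨e, he⟩ : ∃ e : MvPolynomial (Fin (n + 1)) k → Polynomial k,
    e = fun P => -PowerSeries.coeff (m + 2) (MvPolynomial.aeval T P) := ⟨_, rfl⟩
  have hH' : ∀ P ∈ S, ∑ i, MvPolynomial.aeval p (MvPolynomial.pderiv i P) * H i = δ * e P := by
    rw [he]
    exact hH
  obtain ⟨G₁, hG₁⟩ := clear hV e _ δ H hδ rfl hH'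
  have he0 : ∀ P ∈ S, (e P).eval 0 = 0 := by
    intro P hP
    have h1 := aeval_C (f := T) (v := val p 0) (by
      intro i
      ext j
      rw [PowerSeries.coeff_map, PowerSeries.coeff_C]
      split_ifs with h
      · rw [h, hT.zero i]
        rfl
      · have h2 := hT.van i j (by omega)
        rw [Polynomial.coeff_zero_eq_eval_zero] at h2
        exact h2) P
    have h2 := congrArg (PowerSeries.coeff (m + 2)) h1
    rw [PowerSeries.coeff_map, PowerSeries.coeff_C, if_neg (by omega)] at h2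
    rw [he]
    show Polynomial.eval 0 (-PowerSeries.coeff (m + 2) (MvPolynomial.aeval T P)) = 0
    rw [Polynomial.eval_neg, neg_eq_zero]
    exact h2
  obtain ⟨G₂, hG₂0, hG₂⟩ := clear_zero hV e he0 G₁ hG₁
  have hedeg : ∀ P ∈ S, ∀ m, P.IsWeightedHomogeneous w m → (e P).natDegree ≤ m * D := by
    intro P _ m' hm'
    rw [he]
    show (-PowerSeries.coeff (m + 2) (MvPolynomial.aeval T P)).natDegree ≤ m' * D
    rw [Polynomial.natDegree_neg]
    exact Dg_aeval hT.deg hm' _
  obtain ⟨r, hr⟩ : ∃ r, ∀ i, (G₂ i).natDegree ≤ w i * D + r :=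
    ⟨∑ i, (G₂ i).natDegree, fun i =>
      (Finset.single_le_sum (f := fun i => (G₂ i).natDegree) (fun _ _ => Nat.zero_le _)
        (Finset.mem_univ i)).trans (Nat.le_add_left _ _)⟩
  obtain ⟨G, hG1, hG2, hG3⟩ := clear_inf hD hw hS hp hV' e hedeg r G₂ hr hG₂0 hG₂
  refine ⟨G, ?_⟩
  have hc : ∀ i j, PowerSeries.coeff j (T i + PowerSeries.X ^ (m + 2) * PowerSeries.C (G i)) =
      PowerSeries.coeff j (T i) + (if j = m + 2 then G i else 0) := by
    intro i j
    rw [map_add]
    congr 1
    rw [PowerSeries.coeff_X_pow_mul']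
    split_ifs with h1 h2 h2
    · rw [h2, Nat.sub_self, PowerSeries.coeff_zero_C]
    · rw [PowerSeries.coeff_C, if_neg (by omega)]
    · omega
    · rfl
  refine ⟨fun i => ?_, fun i => ?_, fun i j => ?_, fun i j hj => ?_, fun P hP => ?_⟩
  · rw [hc, if_neg (by omega), add_zero, hT.zero]
  · rw [hc, if_neg (by omega), add_zero, hT.one]
  · rw [hc]
    refine (Polynomial.natDegree_add_le _ _).trans (max_le (hT.deg i j) ?_)
    split_ifs
    · exact hG1 i
    · simp
  · rw [hc, Polynomial.coeff_add, hT.van i j hj, zero_add]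
    split_ifs
    · exact hG2 i
    · simp
  · obtain ⟨a, ha⟩ := taylor T (fun i => PowerSeries.C (G i)) (m + 1) P
    obtain ⟨b, hb⟩ := hT.eqs P hP
    have h1 : PowerSeries.coeff (m + 2) (MvPolynomial.aeval T P +
        PowerSeries.X ^ (m + 1 + 1) * ∑ i, MvPolynomial.aeval T (MvPolynomial.pderiv i P) * PowerSeries.C (G i)) = 0 := by
      rw [map_add]
      have h2 : PowerSeries.coeff (m + 2) ((PowerSeries.X : PowerSeries (Polynomial k)) ^ (m + 1 + 1) *
          ∑ i, MvPolynomial.aeval T (MvPolynomial.pderiv i P) * PowerSeries.C (G i)) =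
          ∑ i, MvPolynomial.aeval p (MvPolynomial.pderiv i P) * G i := by
        have h3 := PowerSeries.coeff_X_pow_mul
          (∑ i, MvPolynomial.aeval T (MvPolynomial.pderiv i P) * PowerSeries.C (G i)) (m + 2) 0
        rw [zero_add] at h3
        rw [show m + 1 + 1 = m + 2 from rfl, h3, map_sum]
        refine Finset.sum_congr rfl fun i _ => ?_
        rw [PowerSeries.coeff_zero_eq_constantCoeff, map_mul, ← PowerSeries.coeff_zero_eq_constantCoeff,
          coeff_zero_aeval hT.zero, PowerSeries.coeff_zero_C]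
      rw [h2, hG3 P hP, he]
      show PowerSeries.coeff (m + 2) (MvPolynomial.aeval T P) +
        -PowerSeries.coeff (m + 2) (MvPolynomial.aeval T P) = 0
      ring
    have h4 : (PowerSeries.X : PowerSeries (Polynomial k)) ^ (m + 3) ∣ MvPolynomial.aeval T P +
        PowerSeries.X ^ (m + 1 + 1) * ∑ i, MvPolynomial.aeval T (MvPolynomial.pderiv i P) * PowerSeries.C (G i) := by
      rw [PowerSeries.X_pow_dvd_iff]
      intro j hj
      rcases Nat.lt_or_ge j (m + 2) with h5 | h5
      · have h6 : (PowerSeries.X : PowerSeries (Polynomial k)) ^ (m + 2) ∣ MvPolynomial.aeval T P +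
            PowerSeries.X ^ (m + 1 + 1) * ∑ i, MvPolynomial.aeval T (MvPolynomial.pderiv i P) * PowerSeries.C (G i) :=
          dvd_add ⟨b, hb⟩ (Dvd.intro _ rfl)
        exact PowerSeries.X_pow_dvd_iff.1 h6 j h5
      · have h7 : j = m + 2 := by omega
        rw [h7]
        exact h1
    obtain ⟨d, hd⟩ := h4
    refine ⟨a + d, ?_⟩
    show MvPolynomial.aeval (fun i => T i + PowerSeries.X ^ (m + 1 + 1) * PowerSeries.C (G i)) P = _
    rw [mul_add, ← hd, show m + 3 = m + 1 + 2 from rfl, ← ha]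
    ring

/-- every tangent tuple `t u` is the first order part of an arc -/
theorem arcs [IsAlgClosed k] {c : ℕ} (hw : ∀ i, 0 < w i) (hD : 0 < D)
    (hS : ∀ P ∈ S, ∃ m, P.IsWeightedHomogeneous w m)
    (hp : ∀ i, (p i).natDegree ≤ w i * D)
    (hpS : ∀ P ∈ S, MvPolynomial.aeval p P = 0) (hL : LCI S c (val p 0)) (hV : Vals w S D p)
    (hV' : ValsInf w S D p) {u : Fin (n + 1) → Polynomial k} (hu : UU w S D p u) :
    ∃ T : Fin (n + 1) → PowerSeries (Polynomial k), (∀ i, PowerSeries.coeff 0 (T i) = p i) ∧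
      (∀ i, PowerSeries.coeff 1 (T i) = Polynomial.X * u i) ∧
      (∀ i j, (PowerSeries.coeff j (T i)).natDegree ≤ w i * D) ∧
      (∀ i j, 1 ≤ j → (PowerSeries.coeff j (T i)).coeff 0 = 0) ∧
      ∀ P ∈ S, MvPolynomial.aeval T P = 0 := by
  classical
  have hstep : ∀ (m : ℕ) (T : {T // Ar w S D p u (m + 2) T}), ∃ T' : {T // Ar w S D p u (m + 3) T},
      ∀ i j, j ≤ m + 1 → PowerSeries.coeff j (T'.1 i) = PowerSeries.coeff j (T.1 i) := by
    intro m T
    obtain ⟨G, hG⟩ := Ar_step hw hD hS hp hpS hL hV hV' T.2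
    refine ⟨⟨_, hG⟩, fun i j hj => ?_⟩
    show PowerSeries.coeff j (T.1 i + PowerSeries.X ^ (m + 2) * PowerSeries.C (G i)) = _
    rw [map_add, PowerSeries.coeff_X_pow_mul', if_neg (by omega), add_zero]
  choose nx hnx using hstep
  let sq : (m : ℕ) → {T // Ar w S D p u (m + 2) T} := fun m =>
    Nat.rec ⟨_, Ar_start hp hpS hu⟩ (fun m T => nx m T) m
  have hsq : ∀ m i j, j ≤ m + 1 → PowerSeries.coeff j ((sq (m + 1)).1 i) =
      PowerSeries.coeff j ((sq m).1 i) := fun m i j hj => hnx m (sq m) i j hj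
  have hst : ∀ m i j, j ≤ m → PowerSeries.coeff j ((sq m).1 i) = PowerSeries.coeff j ((sq j).1 i) := by
    intro m i j hj
    induction m, hj using Nat.le_induction with
    | base => rfl
    | succ m hm ih => rw [hsq m i j (by omega), ih]
  refine ⟨fun i => PowerSeries.mk fun j => PowerSeries.coeff j ((sq j).1 i), fun i => ?_, fun i => ?_,
    fun i j => ?_, fun i j hj => ?_, fun P hP => ?_⟩
  · rw [PowerSeries.coeff_mk]
    exact (sq 0).2.zero i
  · rw [PowerSeries.coeff_mk]
    exact (sq 1).2.one i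
  · rw [PowerSeries.coeff_mk]
    exact (sq j).2.deg i j
  · rw [PowerSeries.coeff_mk]
    exact (sq j).2.van i j hj
  · ext j : 1
    rw [map_zero]
    have h1 : (PowerSeries.X : PowerSeries (Polynomial k)) ^ (j + 1) ∣
        MvPolynomial.aeval (fun i => PowerSeries.mk fun j => PowerSeries.coeff j ((sq j).1 i)) P -
          MvPolynomial.aeval (sq j).1 P := by
      refine dvd_sub (fun i => ?_) P
      rw [PowerSeries.X_pow_dvd_iff]
      intro l hl
      rw [map_sub, PowerSeries.coeff_mk, hst j i l (by omega), sub_self]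
    have h2 := PowerSeries.X_pow_dvd_iff.1 h1 j (by omega)
    have h3 := PowerSeries.X_pow_dvd_iff.1 ((sq j).2.eqs P hP) j (by omega)
    rw [map_sub, h3, sub_zero] at h2
    exact h2

end Pool.Agent.Lib.MP_1e3e9c_agK
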