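import Mathlib
import Pool.Agent.Lib.MP_1e3e9c_agK.KF

set_option autoImplicit false

namespace Pool.Agent.Lib.MP_1e3e9c_agK

open Pool.Agent.Lib.MP_1e3e9c_agR

/-- the coefficient of `X^m` of a value at `X σ` -/
theorem coeff_low {k : Type} [Field k] {h m : ℕ} (F : MvPolynomial (Fin h) k)
    (hm : ∀ α ∈ F.support, m ≤ ∑ b, α b) (σ : Fin h → PowerSeries k) :
    PowerSeries.coeff m (MvPolynomial.aeval (fun b => PowerSeries.X * σ b) F) =
      MvPolynomial.eval (fun b => PowerSeries.constantCoeff (σ b)) (MvPolynomial.homogeneousComponent m F) := by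
  classical
  rw [MvPolynomial.homogeneousComponent_apply, map_sum, MvPolynomial.aeval_def, MvPolynomial.eval₂_eq',
    map_sum, Finset.sum_filter]
  refine Finset.sum_congr rfl fun α hα => ?_
  have h1 := hm α hα
  have h2 : (∏ b, (PowerSeries.X * σ b) ^ α b : PowerSeries k) =
      PowerSeries.X ^ (∑ b, α b) * ∏ b, σ b ^ α b := by
    rw [← Finset.prod_pow_eq_pow_sum, ← Finset.prod_mul_distrib]
    refine Finset.prod_congr rfl fun b _ => mul_pow _ _ _
  have h3 : Finsupp.degree α = ∑ b, α b := Finsupp.degree_eq_sum α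
  rw [h2, PowerSeries.algebraMap_apply, Algebra.algebraMap_self, RingHom.id_apply, PowerSeries.coeff_C_mul,
    PowerSeries.coeff_X_pow_mul']
  by_cases h4 : ∑ b, α b = m
  · rw [if_pos h4.le, if_pos (h3.trans h4), h4, Nat.sub_self, PowerSeries.coeff_zero_eq_constantCoeff,
      MvPolynomial.eval_monomial, map_prod]
    congr 1
    rw [Finsupp.prod_fintype _ _ (fun i => pow_zero _)]
    refine Finset.prod_congr rfl fun b _ => map_pow _ _ _
  · rw [if_neg (by omega), if_neg (by rw [h3]; exact h4), mul_zero]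

/-- polynomial relations between series with arbitrary linear terms are trivial -/
theorem no_relation {k : Type} [Field k] [Infinite k] {h : ℕ} (F : MvPolynomial (Fin h) k) (hF : F ≠ 0)
    (H : ∀ y : Fin h → k, ∃ z : Fin h → PowerSeries k, (∀ b, PowerSeries.coeff 0 (z b) = 0) ∧
      (∀ b, PowerSeries.coeff 1 (z b) = y b) ∧ MvPolynomial.aeval z F = 0) : False := by
  classical
  obtain ⟨α, hα, hmin⟩ := Finset.exists_min_image F.support (fun α => ∑ b, α b)
    (MvPolynomial.support_nonempty.2 hF)
  obtain ⟨m, hm⟩ : ∃ m, m = ∑ b, α b := ⟨_, rfl⟩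
  have h1 : MvPolynomial.homogeneousComponent m F = 0 := by
    refine MvPolynomial.funext fun y => ?_
    rw [map_zero]
    obtain ⟨z, hz0, hz1, hz⟩ := H y
    have h2 : ∀ b, (PowerSeries.X : PowerSeries k) ∣ z b := fun b => by
      rw [PowerSeries.X_dvd_iff, ← PowerSeries.coeff_zero_eq_constantCoeff_apply]
      exact hz0 b
    choose σ hσ using h2
    have h3 : z = fun b => PowerSeries.X * σ b := funext hσ
    have h4 : (fun b => PowerSeries.constantCoeff (σ b)) = y := by
      funext b
      rw [← hz1 b, hσ b, ← zero_add 1, PowerSeries.coeff_succ_X_mul,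
        PowerSeries.coeff_zero_eq_constantCoeff_apply]
    have h5 := coeff_low F (m := m) (fun β hβ => by rw [hm]; exact hmin β hβ) σ
    rw [← h3, hz, map_zero, h4] at h5
    exact h5.symm
  have h2 : (MvPolynomial.homogeneousComponent m F).coeff α = F.coeff α := by
    rw [MvPolynomial.coeff_homogeneousComponent, if_pos]
    rw [hm]
    exact Finsupp.degree_eq_sum α
  rw [h1, MvPolynomial.coeff_zero] at h2
  exact MvPolynomial.mem_support_iff.1 hα h2.symm

end Pool.Agent.Lib.MP_1e3e9c_agK
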