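import Mathlib
import Pool.Agent.Lib.MP_1e3e9c_agK.KG

set_option autoImplicit false

namespace Pool.Agent.Lib.MP_1e3e9c_agK

open Pool.Agent.Lib.MP_1e3e9c_agR

variable {k : Type} [Field k] {n D : ℕ} {w : Fin (n + 1) → ℕ} {S : Set (MvPolynomial (Fin (n + 1)) k)}

/-- the generic curve through `v` -/
noncomputable def gen (w : Fin (n + 1) → ℕ) (D : ℕ) (v : Fin (n + 1) → k) (i : Fin (n + 1)) :
    Polynomial (MvPolynomial (Un w D) k) :=
  Polynomial.C (MvPolynomial.C (v i)) + ∑ l : Fin (w i * D),
    Polynomial.C (MvPolynomial.X (⟨i, l⟩ : Un w D)) * Polynomial.X ^ ((l : ℕ) + 1)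

/-- the value of `P` at the generic curve -/
noncomputable def eqn (w : Fin (n + 1) → ℕ) (D : ℕ) (v : Fin (n + 1) → k)
    (P : MvPolynomial (Fin (n + 1)) k) : Polynomial (MvPolynomial (Un w D) k) :=
  MvPolynomial.aeval (gen w D v) P

/-- the curve with the coefficients `γ` in an algebra -/
noncomputable def crvB {B : Type} [CommRing B] [Algebra k B] (w : Fin (n + 1) → ℕ) (D : ℕ)
    (v : Fin (n + 1) → k) (γ : Un w D → B) (i : Fin (n + 1)) : Polynomial B :=
  Polynomial.C (algebraMap k B (v i)) + ∑ l : Fin (w i * D), Polynomial.C (γ ⟨i, l⟩) *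
    Polynomial.X ^ ((l : ℕ) + 1)

theorem gen_map {B : Type} [CommRing B] [Algebra k B] (v : Fin (n + 1) → k) (γ : Un w D → B)
    (i : Fin (n + 1)) :
    (gen w D v i).map (MvPolynomial.aeval γ : MvPolynomial (Un w D) k →ₐ[k] B).toRingHom =
      crvB w D v γ i := by
  unfold gen crvB
  rw [Polynomial.map_add, Polynomial.map_C, Polynomial.map_sum]
  congr 1
  · congr 1
    exact MvPolynomial.aeval_C γ (v i)
  · refine Finset.sum_congr rfl fun l _ => ?_
    rw [Polynomial.map_mul, Polynomial.map_pow, Polynomial.map_X, Polynomial.map_C]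
    congr 2
    exact MvPolynomial.aeval_X γ _

theorem eqn_map {B : Type} [CommRing B] [Algebra k B] (v : Fin (n + 1) → k) (γ : Un w D → B)
    (P : MvPolynomial (Fin (n + 1)) k) :
    (eqn w D v P).map (MvPolynomial.aeval γ : MvPolynomial (Un w D) k →ₐ[k] B).toRingHom =
      MvPolynomial.aeval (crvB w D v γ) P := by
  unfold eqn
  induction P using MvPolynomial.induction_on with
  | C a =>
    rw [MvPolynomial.aeval_C, MvPolynomial.aeval_C, Polynomial.algebraMap_apply,
      Polynomial.algebraMap_apply, Polynomial.map_C]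
    congr 1
    exact (MvPolynomial.aeval γ : MvPolynomial (Un w D) k →ₐ[k] B).commutes a
  | add P Q hP hQ => rw [map_add, map_add, Polynomial.map_add, hP, hQ]
  | mul_X P i hP =>
    rw [map_mul, map_mul, Polynomial.map_mul, hP, MvPolynomial.aeval_X, MvPolynomial.aeval_X, gen_map]

theorem crvB_eq (v : Fin (n + 1) → k) (c : Un w D → k) : crvB w D v c = crv w D v c := by
  funext i
  rfl

theorem eval_eqn (v : Fin (n + 1) → k) (c : Un w D → k) (P : MvPolynomial (Fin (n + 1)) k) (j : ℕ) :
    MvPolynomial.eval c ((eqn w D v P).coeff j) = (MvPolynomial.aeval (crv w D v c) P).coeff j := by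
  rw [← crvB_eq, ← eqn_map, Polynomial.coeff_map]
  exact (DFunLike.congr_fun (MvPolynomial.coe_aeval_eq_eval c) _).symm

theorem aeval_eqn {B : Type} [CommRing B] [Algebra k B] (v : Fin (n + 1) → k) (γ : Un w D → B)
    (P : MvPolynomial (Fin (n + 1)) k) (j : ℕ) :
    MvPolynomial.aeval γ ((eqn w D v P).coeff j) = (MvPolynomial.aeval (crvB w D v γ) P).coeff j := by
  rw [← eqn_map, Polynomial.coeff_map]
  rfl

/-- `k⟦ε⟧[t] → k[t]⟦ε⟧` -/
noncomputable def sw : Polynomial (PowerSeries k) →+* PowerSeries (Polynomial k) :=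
  Polynomial.eval₂RingHom (PowerSeries.map Polynomial.C) (PowerSeries.C Polynomial.X)

theorem coeff_sw (f : Polynomial (PowerSeries k)) (j l : ℕ) :
    (PowerSeries.coeff j (sw f)).coeff l = PowerSeries.coeff j (f.coeff l) := by
  induction f using Polynomial.induction_on' with
  | add f g hf hg =>
    rw [map_add, map_add, Polynomial.coeff_add, hf, hg, Polynomial.coeff_add, map_add]
  | monomial m a =>
    unfold sw
    rw [Polynomial.coe_eval₂RingHom, Polynomial.eval₂_monomial, ← map_pow, PowerSeries.coeff_mul_C,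
      PowerSeries.coeff_map, Polynomial.coeff_C_mul, Polynomial.coeff_X_pow, Polynomial.coeff_monomial]
    by_cases h : m = l
    · rw [if_pos h, if_pos h.symm, mul_one]
    · rw [if_neg h, if_neg (fun h' => h h'.symm), mul_zero, map_zero]

theorem sw_inj (f : Polynomial (PowerSeries k)) (h : sw f = 0) : f = 0 := by
  ext l j
  rw [← coeff_sw, h]
  simp

theorem sw_aeval (g : Fin (n + 1) → Polynomial (PowerSeries k)) (P : MvPolynomial (Fin (n + 1)) k) :
    sw (MvPolynomial.aeval g P) = MvPolynomial.aeval (fun i => sw (g i)) P := by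
  induction P using MvPolynomial.induction_on with
  | C a =>
    rw [MvPolynomial.aeval_C, MvPolynomial.aeval_C, Polynomial.algebraMap_apply,
      PowerSeries.algebraMap_apply, PowerSeries.algebraMap_apply]
    unfold sw
    rw [Polynomial.coe_eval₂RingHom, Polynomial.eval₂_C, PowerSeries.map_C]
    rfl
  | add P Q hP hQ => rw [map_add, map_add, map_add, hP, hQ]
  | mul_X P i hP => rw [map_mul, map_mul, map_mul, hP, MvPolynomial.aeval_X, MvPolynomial.aeval_X]

/-- the coefficients of an arc -/
noncomputable def gm (w : Fin (n + 1) → ℕ) (D : ℕ) (T : Fin (n + 1) → PowerSeries (Polynomial k)) (x : Un w D) :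
    PowerSeries k :=
  PowerSeries.mk fun j => (PowerSeries.coeff j (T x.1)).coeff ((x.2 : ℕ) + 1)

theorem coeff_crvB {B : Type} [CommRing B] [Algebra k B] (v : Fin (n + 1) → k) (γ : Un w D → B)
    (i : Fin (n + 1)) (l : ℕ) : (crvB w D v γ i).coeff (l + 1) =
      if h : l < w i * D then γ ⟨i, ⟨l, h⟩⟩ else 0 := by
  unfold crvB
  rw [Polynomial.coeff_add, Polynomial.coeff_C_succ, zero_add, Polynomial.finsetSum_coeff]
  simp only [Polynomial.coeff_C_mul, Polynomial.coeff_X_pow]
  split_ifs with h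
  · rw [Finset.sum_eq_single ⟨l, h⟩]
    · simp
    · intro b _ hb
      rw [if_neg, mul_zero]
      intro h'
      exact hb (Fin.ext (by show (b : ℕ) = l; omega))
    · intro h'
      exact absurd (Finset.mem_univ _) h'
  · refine Finset.sum_eq_zero fun b _ => ?_
    rw [if_neg, mul_zero]
    intro h'
    have := b.2
    omega

theorem coeff_crvB_zero {B : Type} [CommRing B] [Algebra k B] (v : Fin (n + 1) → k) (γ : Un w D → B)
    (i : Fin (n + 1)) : (crvB w D v γ i).coeff 0 = algebraMap k B (v i) := by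
  unfold crvB
  rw [Polynomial.coeff_add, Polynomial.coeff_C_zero, Polynomial.finsetSum_coeff, Finset.sum_eq_zero, add_zero]
  intro l _
  rw [Polynomial.coeff_C_mul, Polynomial.coeff_X_pow, if_neg (by omega), mul_zero]

theorem sw_crvB {v : Fin (n + 1) → k} {T : Fin (n + 1) → PowerSeries (Polynomial k)}
    (h0 : ∀ i, (PowerSeries.coeff 0 (T i)).coeff 0 = v i)
    (hT : ∀ i j, (PowerSeries.coeff j (T i)).natDegree ≤ w i * D)
    (hT0 : ∀ i j, 1 ≤ j → (PowerSeries.coeff j (T i)).coeff 0 = 0) (i : Fin (n + 1)) :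
    sw (crvB w D v (gm w D T) i) = T i := by
  ext j l
  rw [coeff_sw]
  rcases l with _ | l
  · rw [coeff_crvB_zero, PowerSeries.algebraMap_apply, PowerSeries.coeff_C]
    split_ifs with h
    · rw [h, h0]
      rfl
    · rw [hT0 i j (by omega)]
  · rw [coeff_crvB]
    split_ifs with h
    · unfold gm
      rw [PowerSeries.coeff_mk]
    · rw [map_zero, Polynomial.coeff_eq_zero_of_natDegree_lt (lt_of_le_of_lt (hT i j) (by omega))]

/-- arcs in the zero set of `S` annihilate the polynomials which vanish on the open set `h ≠ 0` of curves -/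
theorem kill [IsAlgClosed k] {v : Fin (n + 1) → k} {c₀ : Un w D → k}
    {T : Fin (n + 1) → PowerSeries (Polynomial k)}
    (hz : ∀ i, PowerSeries.coeff 0 (T i) = crv w D v c₀ i)
    (hT : ∀ i j, (PowerSeries.coeff j (T i)).natDegree ≤ w i * D)
    (hT0 : ∀ i j, 1 ≤ j → (PowerSeries.coeff j (T i)).coeff 0 = 0)
    (hTS : ∀ P ∈ S, MvPolynomial.aeval T P = 0)
    {h q : MvPolynomial (Un w D) k} (hh : MvPolynomial.eval c₀ h ≠ 0)
    (hq : ∀ c, (∀ P ∈ S, MvPolynomial.aeval (crv w D v c) P = 0) → MvPolynomial.eval c h ≠ 0 →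
      MvPolynomial.eval c q = 0) : MvPolynomial.aeval (gm w D T) q = 0 := by
  classical
  have hae : ∀ (c : Un w D → k) (q : MvPolynomial (Un w D) k), MvPolynomial.aeval c q = MvPolynomial.eval c q :=
    fun c q => DFunLike.congr_fun (MvPolynomial.coe_aeval_eq_eval c) q
  have hv0 : ∀ i, (PowerSeries.coeff 0 (T i)).coeff 0 = v i := by
    intro i
    rw [hz, ← crvB_eq, coeff_crvB_zero]
    rfl
  obtain ⟨J, hJ⟩ : ∃ J : Ideal (MvPolynomial (Un w D) k),
    J = Ideal.span {r | ∃ P ∈ S, ∃ l, r = (eqn w D v P).coeff l} := ⟨_, rfl⟩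
  have hJk : J ≤ RingHom.ker (MvPolynomial.aeval (gm w D T) : MvPolynomial (Un w D) k →ₐ[k] PowerSeries k) := by
    rw [hJ, Ideal.span_le]
    rintro r ⟨P, hP, l, rfl⟩
    show MvPolynomial.aeval (gm w D T) _ = 0
    rw [aeval_eqn]
    have h1 : MvPolynomial.aeval (crvB w D v (gm w D T)) P = 0 := by
      refine sw_inj _ ?_
      rw [sw_aeval]
      have h2 : (fun i => sw (crvB w D v (gm w D T) i)) = T := funext fun i => sw_crvB hv0 hT hT0 i
      rw [h2, hTS P hP]
    rw [h1, Polynomial.coeff_zero]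
  have hmem : q * h ∈ J.radical := by
    rw [← MvPolynomial.vanishingIdeal_zeroLocus_eq_radical (k := k) (K := k) J,
      MvPolynomial.mem_vanishingIdeal_iff]
    intro c hc
    rw [hae, map_mul]
    by_cases h1 : MvPolynomial.eval c h = 0
    · rw [h1, mul_zero]
    · rw [hq c (fun P hP => ?_) h1, zero_mul]
      ext l
      rw [← eval_eqn, Polynomial.coeff_zero, ← hae]
      refine hc _ ?_
      rw [hJ]
      exact Ideal.subset_span ⟨P, hP, l, rfl⟩
  obtain ⟨M, hM⟩ := hmem
  have h1 := hJk hM
  rw [RingHom.mem_ker, map_pow, map_mul] at h1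
  have h2 : MvPolynomial.aeval (gm w D T) q * MvPolynomial.aeval (gm w D T) h = 0 :=
    eq_zero_of_pow_eq_zero h1
  have h3 : MvPolynomial.aeval (gm w D T) h ≠ 0 := by
    intro h4
    apply hh
    have h5 : PowerSeries.constantCoeff (MvPolynomial.aeval (gm w D T) h) = MvPolynomial.eval c₀ h := by
      have h6 : ∀ r : MvPolynomial (Un w D) k,
          PowerSeries.constantCoeff (MvPolynomial.aeval (gm w D T) r) = MvPolynomial.eval c₀ r := by
        intro r
        induction r using MvPolynomial.induction_on with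
        | C a =>
          rw [MvPolynomial.aeval_C, MvPolynomial.eval_C, PowerSeries.algebraMap_apply]
          simp
        | add P Q hP hQ => rw [map_add, map_add, map_add, hP, hQ]
        | mul_X P x hP =>
          rw [map_mul, map_mul, map_mul, hP, MvPolynomial.aeval_X, MvPolynomial.eval_X]
          congr 1
          unfold gm
          rw [← PowerSeries.coeff_zero_eq_constantCoeff_apply, PowerSeries.coeff_mk, hz, ← crvB_eq,
            coeff_crvB, dif_pos x.2.2]
      exact h6 h
    rw [← h5, h4, map_zero]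
  exact (mul_eq_zero.1 h2).resolve_right h3

end Pool.Agent.Lib.MP_1e3e9c_agK
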