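import Mathlib
import Pool.Agent.Lib.MP_1e3e9c_agK.KH

set_option autoImplicit false

namespace Pool.Agent.Lib.MP_1e3e9c_agK

open Pool.Agent.Lib.MP_1e3e9c_agR

variable {k : Type} [Field k] {n D : ℕ} {w : Fin (n + 1) → ℕ} {S : Set (MvPolynomial (Fin (n + 1)) k)}

/-- the weights of the unknown coefficients -/
def wtU (w : Fin (n + 1) → ℕ) (D : ℕ) (x : Un w D) : ℕ := (x.2 : ℕ) + 1

/-- the curve `p(λ t)` -/
def sc (l : k) (c : Un w D → k) (x : Un w D) : k := l ^ wtU w D x * c x

/-- the values on the orbit of `c` -/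
noncomputable def Lam (c : Un w D → k) : MvPolynomial (Un w D) k →ₐ[k] Polynomial k :=
  MvPolynomial.aeval fun x => Polynomial.C (c x) * Polynomial.X ^ wtU w D x

theorem eval_Lam (c : Un w D → k) (l : k) (q : MvPolynomial (Un w D) k) :
    (Lam c q).eval l = MvPolynomial.eval (sc l c) q := by
  unfold Lam
  induction q using MvPolynomial.induction_on with
  | C a => simp
  | add p q hp hq => rw [map_add, map_add, Polynomial.eval_add, hp, hq]
  | mul_X p x hp =>
    rw [map_mul, map_mul, Polynomial.eval_mul, hp, MvPolynomial.aeval_X, MvPolynomial.eval_X]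
    unfold sc
    rw [Polynomial.eval_mul, Polynomial.eval_C, Polynomial.eval_pow, Polynomial.eval_X, mul_comm (c x)]

theorem coeff_Lam (c : Un w D → k) (q : MvPolynomial (Un w D) k) (d : ℕ) :
    (Lam c q).coeff d =
      MvPolynomial.eval c (MvPolynomial.weightedHomogeneousComponent (wtU w D) d q) := by
  classical
  induction q using MvPolynomial.induction_on' with
  | monomial α a =>
    have h1 : Lam c (MvPolynomial.monomial α a) = Polynomial.C (MvPolynomial.eval c (MvPolynomial.monomial α a)) *
        Polynomial.X ^ (Finsupp.weight (wtU w D) α) := by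
      unfold Lam
      rw [MvPolynomial.aeval_monomial, MvPolynomial.eval_monomial, Finsupp.prod_fintype _ _ (fun _ => pow_zero _),
        Finsupp.prod_fintype _ _ (fun _ => pow_zero _), Finsupp.weight_apply,
        Finsupp.sum_fintype _ _ (fun _ => by rw [zero_smul])]
      simp only [mul_pow, Finset.prod_mul_distrib, ← pow_mul, Polynomial.C_mul, Polynomial.algebraMap_eq]
      rw [Finset.prod_pow_eq_pow_sum, mul_assoc]
      congr 2
      · rw [map_prod]
        refine Finset.prod_congr rfl fun x _ => by rw [map_pow]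
      · congr 1
        refine Finset.sum_congr rfl fun x _ => by rw [smul_eq_mul, mul_comm]
    rw [h1, Polynomial.coeff_C_mul, Polynomial.coeff_X_pow]
    have h2 : MvPolynomial.weightedHomogeneousComponent (wtU w D) d (MvPolynomial.monomial α a) =
        if d = Finsupp.weight (wtU w D) α then MvPolynomial.monomial α a else 0 := by
      ext β
      rw [MvPolynomial.coeff_weightedHomogeneousComponent]
      by_cases h3 : d = Finsupp.weight (wtU w D) α
      · rw [if_pos h3, MvPolynomial.coeff_monomial]
        by_cases h4 : α = β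
        · rw [if_pos h4, if_pos (by rw [← h4, h3])]
        · rw [if_neg h4, ite_self]
      · rw [if_neg h3, MvPolynomial.coeff_monomial, MvPolynomial.coeff_zero]
        by_cases h4 : α = β
        · rw [if_neg]
          rw [← h4]
          exact fun h5 => h3 h5.symm
        · rw [if_neg h4, ite_self]
    rw [h2]
    split_ifs with h3
    · rw [mul_one]
    · rw [mul_zero, map_zero]
  | add p q hp hq => rw [map_add, map_add, map_add, Polynomial.coeff_add, hp, hq]

theorem eval_sc {q : MvPolynomial (Un w D) k} {j : ℕ} (hq : q.IsWeightedHomogeneous (wtU w D) j)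
    (c : Un w D → k) (l : k) : MvPolynomial.eval (sc l c) q = l ^ j * MvPolynomial.eval c q := by
  classical
  have h1 : Lam c q = Polynomial.C (MvPolynomial.eval c q) * Polynomial.X ^ j := by
    ext d
    rw [coeff_Lam, Polynomial.coeff_C_mul, Polynomial.coeff_X_pow]
    have h2 : MvPolynomial.weightedHomogeneousComponent (wtU w D) d q = if d = j then q else 0 := by
      ext β
      rw [MvPolynomial.coeff_weightedHomogeneousComponent]
      by_cases h3 : q.coeff β = 0
      · split_ifs <;> simp [h3]
      · have h4 := hq h3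
        rw [h4]
        by_cases h5 : d = j
        · rw [if_pos h5, if_pos h5.symm]
        · rw [if_neg h5, if_neg (fun h => h5 h.symm), MvPolynomial.coeff_zero]
    rw [h2]
    split_ifs
    · rw [mul_one]
    · rw [mul_zero, map_zero]
  rw [← eval_Lam, h1, Polynomial.eval_mul, Polynomial.eval_C, Polynomial.eval_pow, Polynomial.eval_X, mul_comm]

/-- the coefficient of `t^j` has weight `j` -/
def WH (w : Fin (n + 1) → ℕ) (D : ℕ) (f : Polynomial (MvPolynomial (Un w D) k)) : Prop :=
  ∀ j, (f.coeff j).IsWeightedHomogeneous (wtU w D) j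

theorem WH_mul {f g : Polynomial (MvPolynomial (Un w D) k)} (hf : WH w D f) (hg : WH w D g) :
    WH w D (f * g) := by
  intro j
  rw [Polynomial.coeff_mul]
  refine MvPolynomial.IsWeightedHomogeneous.sum _ _ _ fun x hx => ?_
  rw [← Finset.HasAntidiagonal.mem_antidiagonal.1 hx]
  exact (hf x.1).mul (hg x.2)

theorem WH_gen (v : Fin (n + 1) → k) (i : Fin (n + 1)) : WH w D (gen w D v i) := by
  classical
  intro j
  unfold gen
  rw [Polynomial.coeff_add, Polynomial.coeff_C, Polynomial.finsetSum_coeff]
  refine MvPolynomial.IsWeightedHomogeneous.add ?_ (MvPolynomial.IsWeightedHomogeneous.sum _ _ _ fun l _ => ?_)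
  · split_ifs with h
    · rw [h]
      exact MvPolynomial.isWeightedHomogeneous_C _ _
    · exact MvPolynomial.isWeightedHomogeneous_zero _ _ _
  · rw [Polynomial.coeff_C_mul, Polynomial.coeff_X_pow]
    split_ifs with h
    · rw [mul_one, h]
      exact MvPolynomial.isWeightedHomogeneous_X _ _ _
    · rw [mul_zero]
      exact MvPolynomial.isWeightedHomogeneous_zero _ _ _

theorem WH_eqn (v : Fin (n + 1) → k) (P : MvPolynomial (Fin (n + 1)) k) : WH w D (eqn w D v P) := by
  classical
  unfold eqn
  induction P using MvPolynomial.induction_on with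
  | C a =>
    intro j
    rw [MvPolynomial.aeval_C, Polynomial.algebraMap_apply, Polynomial.coeff_C]
    split_ifs with h
    · rw [h]
      exact MvPolynomial.isWeightedHomogeneous_C _ _
    · exact MvPolynomial.isWeightedHomogeneous_zero _ _ _
  | add P Q hP hQ =>
    intro j
    rw [map_add, Polynomial.coeff_add]
    exact (hP j).add (hQ j)
  | mul_X P i hP =>
    rw [map_mul, MvPolynomial.aeval_X]
    exact WH_mul hP (WH_gen v i)

theorem scale_eq {v : Fin (n + 1) → k} {c : Un w D → k} {P : MvPolynomial (Fin (n + 1)) k}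
    (h : MvPolynomial.aeval (crv w D v c) P = 0) (l : k) :
    MvPolynomial.aeval (crv w D v (sc l c)) P = 0 := by
  ext j
  rw [← eval_eqn, eval_sc (WH_eqn v P j), eval_eqn, h, Polynomial.coeff_zero, mul_zero]

/-- the open set of curves -/
def BB (w : Fin (n + 1) → ℕ) (S : Set (MvPolynomial (Fin (n + 1)) k)) (D : ℕ) (v : Fin (n + 1) → k)
    (h : MvPolynomial (Un w D) k) : Set (Un w D → k) :=
  {c | (∀ P ∈ S, MvPolynomial.aeval (crv w D v c) P = 0) ∧ MvPolynomial.eval c h ≠ 0}

/-- the ideal of the closure of the open set of curves is homogeneous -/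
theorem BB_hom [Infinite k] {v : Fin (n + 1) → k} {h : MvPolynomial (Un w D) k} {j : ℕ}
    (hh : h.IsWeightedHomogeneous (wtU w D) j) {q : MvPolynomial (Un w D) k}
    (hq : q ∈ MvPolynomial.vanishingIdeal k (BB w S D v h)) (d : ℕ) :
    MvPolynomial.weightedHomogeneousComponent (wtU w D) d q ∈
      MvPolynomial.vanishingIdeal k (BB w S D v h) := by
  have hae : ∀ (c : Un w D → k) (q : MvPolynomial (Un w D) k), MvPolynomial.aeval c q = MvPolynomial.eval c q :=
    fun c q => DFunLike.congr_fun (MvPolynomial.coe_aeval_eq_eval c) q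
  rw [MvPolynomial.mem_vanishingIdeal_iff] at hq ⊢
  rintro c ⟨hc, hch⟩
  rw [hae, ← coeff_Lam]
  have h1 : Lam c q * Polynomial.X = 0 := by
    refine Polynomial.funext fun l => ?_
    rw [Polynomial.eval_mul, Polynomial.eval_X, Polynomial.eval_zero, eval_Lam]
    by_cases hl : l = 0
    · rw [hl, mul_zero]
    · have h2 := hq (sc l c) ⟨fun P hP => scale_eq (hc P hP) l, by
        rw [eval_sc hh]
        exact mul_ne_zero (pow_ne_zero _ hl) hch⟩
      rw [hae] at h2
      rw [h2, zero_mul]
  have h3 : Lam c q = 0 := (mul_eq_zero.1 h1).resolve_right Polynomial.X_ne_zero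
  rw [h3, Polynomial.coeff_zero]

theorem sc_one (c : Un w D → k) : sc 1 c = c := by
  funext x
  unfold sc
  rw [one_pow, one_mul]

/-- a homogeneous component of the open condition is enough -/
theorem exists_component [Infinite k] {v : Fin (n + 1) → k} {h : MvPolynomial (Un w D) k}
    (A : Ideal (MvPolynomial (Un w D) k))
    (hA : ∀ c ∈ BB w S D v h, ∀ q ∈ A, MvPolynomial.eval c q = 0) {c₀ : Un w D → k}
    (hc₀ : MvPolynomial.eval c₀ h ≠ 0) :
    ∃ (j : ℕ) (h' : MvPolynomial (Un w D) k), h'.IsWeightedHomogeneous (wtU w D) j ∧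
      MvPolynomial.eval c₀ h' ≠ 0 ∧ A ≤ MvPolynomial.vanishingIdeal k (BB w S D v h') := by
  have hae : ∀ (c : Un w D → k) (q : MvPolynomial (Un w D) k), MvPolynomial.aeval c q = MvPolynomial.eval c q :=
    fun c q => DFunLike.congr_fun (MvPolynomial.coe_aeval_eq_eval c) q
  have h1 : Lam c₀ h ≠ 0 := by
    intro h2
    apply hc₀
    have h3 := eval_Lam c₀ 1 h
    rw [sc_one, h2, Polynomial.eval_zero] at h3
    exact h3.symm
  obtain ⟨j, hj⟩ : ∃ j, (Lam c₀ h).coeff j ≠ 0 := by
    by_contra h2
    push Not at h2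
    exact h1 (Polynomial.ext fun j => by rw [h2 j, Polynomial.coeff_zero])
  rw [coeff_Lam] at hj
  refine ⟨j, _, MvPolynomial.weightedHomogeneousComponent_isWeightedHomogeneous _ _, hj, fun q hq => ?_⟩
  rw [MvPolynomial.mem_vanishingIdeal_iff]
  rintro c ⟨hc, hch⟩
  rw [hae]
  have h2 : Lam c h ≠ 0 := by
    intro h3
    apply hch
    rw [← coeff_Lam, h3, Polynomial.coeff_zero]
  have h3 : Lam c q * Lam c h = 0 := by
    refine Polynomial.funext fun l => ?_
    rw [Polynomial.eval_mul, Polynomial.eval_zero, eval_Lam, eval_Lam]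
    by_cases h4 : MvPolynomial.eval (sc l c) h = 0
    · rw [h4, mul_zero]
    · rw [hA (sc l c) ⟨fun P hP => scale_eq (hc P hP) l, h4⟩ q hq, zero_mul]
  have h4 : Lam c q = 0 := (mul_eq_zero.1 h3).resolve_right h2
  have h5 := eval_Lam c 1 q
  rw [sc_one, h4, Polynomial.eval_zero] at h5
  exact h5.symm

end Pool.Agent.Lib.MP_1e3e9c_agK
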