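import Mathlib

/-!
# LEMMA K, graded Nakayama (leaf KN)

PROOF. `B = R ⧸ I`, `R = MvPolynomial σ k`, `B0 = adjoin k (range (mk ∘ f))`. By `hz` and the Nullstellensatz (`MvPolynomial.vanishingIdeal_zeroLocus_eq_radical`) every `X u` is in the radical of
`I ⊔ span (range f)`; so there is one `N` with `X u ^ N ∈ I ⊔ span (range f)` for all `u`. Let `M` be the `B0`-submodule of `B` spanned by the classes of the (finitely many) monomials with all exponents `< N`.
Claim: the class of every polynomial is in `M`: it is enough for monomials `μ = monomial α 1`, induction on the weight `d` of `μ`. If all `α u < N`: clear. Otherwise `μ = X u ^ N * μ'`,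
`X u ^ N = a + ∑ j, g j * f j`, `a ∈ I`, so `μ = a * μ' + ∑ j, (g j * μ') * f j`; the weighted component of degree `d` of `(g j * μ') * f j` is `c * f j`, `c` the component of `g j * μ'` of degree `d - e j`
(or `0` if `d < e j`), that of `a * μ'` is in `I` (`hI`); `c` is a linear combination of monomials of weight `d - e j < d` (`he`): its class is in `M` by induction, and `mk (f j) ∈ B0`.
So `B` is a finite `B0`-module (`Module.Finite`), `Algebra.IsIntegral`.
-/

set_option autoImplicit false

namespace Pool.Agent.Lib.MP_1e3e9c_agK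

private theorem KN_comp {k σ : Type} [Field k] (wt : σ → ℕ) (f : MvPolynomial σ k) {e : ℕ}
    (hf : f.IsWeightedHomogeneous wt e) (N : ℕ) (g : MvPolynomial σ k) :
    ∃ g' : MvPolynomial σ k, (∀ α, g'.coeff α ≠ 0 → Finsupp.weight wt α + e = N) ∧
      MvPolynomial.weightedHomogeneousComponent wt N (g * f) = g' * f := by
  classical
  induction g using MvPolynomial.induction_on' with
  | monomial α c =>
    have h1 : (MvPolynomial.monomial α c * f).IsWeightedHomogeneous wt (Finsupp.weight wt α + e) :=
      (MvPolynomial.isWeightedHomogeneous_monomial wt α c rfl).mul hf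
    rw [MvPolynomial.weightedHomogeneousComponent_of_mem h1]
    by_cases h : N = Finsupp.weight wt α + e
    · refine ⟨MvPolynomial.monomial α c, fun β hβ => ?_, if_pos h⟩
      rw [MvPolynomial.coeff_monomial] at hβ
      split_ifs at hβ with h2
      · rw [← h2, h]
      · exact absurd rfl hβ
    · exact ⟨0, fun α hα => absurd (MvPolynomial.coeff_zero α) hα, by rw [if_neg h, zero_mul]⟩
  | add p q hp hq =>
    obtain ⟨p', hp1, hp2⟩ := hp
    obtain ⟨q', hq1, hq2⟩ := hq
    refine ⟨p' + q', fun α hα => ?_, by rw [add_mul, map_add, hp2, hq2, add_mul]⟩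
    by_cases h : p'.coeff α = 0
    · refine hq1 α fun h2 => hα ?_
      rw [MvPolynomial.coeff_add, h, h2, add_zero]
    · exact hp1 α h

theorem integral_of_zero {k σ τ : Type} [Field k] [IsAlgClosed k] [Fintype σ] [Fintype τ]
    (wt : σ → ℕ) (hwt : ∀ u, 0 < wt u) (I : Ideal (MvPolynomial σ k))
    (hI : ∀ q ∈ I, ∀ d, MvPolynomial.weightedHomogeneousComponent wt d q ∈ I)
    (f : τ → MvPolynomial σ k) (e : τ → ℕ) (he : ∀ j, 0 < e j)
    (hf : ∀ j, (f j).IsWeightedHomogeneous wt (e j))
    (hz : ∀ c : σ → k, (∀ q ∈ I, MvPolynomial.eval c q = 0) →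
      (∀ j, MvPolynomial.eval c (f j) = 0) → c = 0)
    (x : MvPolynomial σ k ⧸ I) :
    IsIntegral (Algebra.adjoin k (Set.range fun j => Ideal.Quotient.mk I (f j))) x := by
  classical
  have _ := hwt
  have h1 : ∀ u, ∃ N, (MvPolynomial.X u : MvPolynomial σ k) ^ N ∈ I ⊔ Ideal.span (Set.range f) := by
    intro u
    have h2 : (MvPolynomial.X u : MvPolynomial σ k) ∈ (I ⊔ Ideal.span (Set.range f)).radical := by
      rw [← MvPolynomial.vanishingIdeal_zeroLocus_eq_radical (K := k), MvPolynomial.mem_vanishingIdeal_iff]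
      intro c hc
      have h3 : c = 0 := hz c
        (fun q hq => by
          rw [← MvPolynomial.aeval_eq_eval]
          exact hc q (Ideal.mem_sup_left hq))
        (fun j => by
          rw [← MvPolynomial.aeval_eq_eval]
          exact hc (f j) (Ideal.mem_sup_right (Ideal.subset_span ⟨j, rfl⟩)))
      rw [h3, MvPolynomial.aeval_X, Pi.zero_apply]
    exact h2
  choose N0 hN0 using h1
  obtain ⟨N, hN⟩ : ∃ N, ∀ u, (MvPolynomial.X u : MvPolynomial σ k) ^ N ∈ I ⊔ Ideal.span (Set.range f) := by
    refine ⟨∑ u, N0 u, fun u => ?_⟩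
    have h2 : N0 u ≤ ∑ u, N0 u := Finset.single_le_sum (fun _ _ => Nat.zero_le _) (Finset.mem_univ u)
    rw [← Nat.sub_add_cancel h2, pow_add]
    exact Ideal.mul_mem_left _ _ (hN0 u)
  have h2 : ∀ u, ∃ (a : MvPolynomial σ k) (g : τ → MvPolynomial σ k), a ∈ I ∧
      (∀ j α, (g j).coeff α ≠ 0 → Finsupp.weight wt α + e j = N * wt u) ∧
        (MvPolynomial.X u : MvPolynomial σ k) ^ N = a + ∑ j, g j * f j := by
    intro u
    obtain ⟨a, ha, b, hb, hab⟩ := Submodule.mem_sup.mp (hN u)
    obtain ⟨g, hg⟩ := (Ideal.mem_span_range_iff_exists_fun).mp hb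
    choose g' hg'1 hg'2 using fun j => KN_comp wt (f j) (hf j) (N * wt u) (g j)
    refine ⟨MvPolynomial.weightedHomogeneousComponent wt (N * wt u) a, g', hI a ha _, hg'1, ?_⟩
    have h3 : ((MvPolynomial.X u : MvPolynomial σ k) ^ N).IsWeightedHomogeneous wt (N * wt u) := by
      have h4 := (MvPolynomial.isWeightedHomogeneous_X k wt u).pow N
      rw [smul_eq_mul] at h4
      exact h4
    calc (MvPolynomial.X u : MvPolynomial σ k) ^ N
        = MvPolynomial.weightedHomogeneousComponent wt (N * wt u) ((MvPolynomial.X u : MvPolynomial σ k) ^ N) :=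
          (MvPolynomial.weightedHomogeneousComponent_eq_self h3).symm
      _ = MvPolynomial.weightedHomogeneousComponent wt (N * wt u) (a + ∑ j, g j * f j) := by rw [← hab, ← hg]
      _ = MvPolynomial.weightedHomogeneousComponent wt (N * wt u) a + ∑ j, g' j * f j := by
          rw [map_add, map_sum]
          congr 1
          exact Finset.sum_congr rfl fun j _ => hg'2 j
  obtain ⟨S, hS⟩ : ∃ S : Set (MvPolynomial σ k ⧸ I),
    S = (fun α : σ →₀ ℕ => Ideal.Quotient.mk I (MvPolynomial.monomial α 1)) '' {α | ∀ u, α u < N} := ⟨_, rfl⟩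
  obtain ⟨M, hM⟩ : ∃ M : Submodule (Algebra.adjoin k (Set.range fun j => Ideal.Quotient.mk I (f j)))
    (MvPolynomial σ k ⧸ I), M = Submodule.span _ S := ⟨_, rfl⟩
  have hsum : ∀ p : MvPolynomial σ k, (∀ α, p.coeff α ≠ 0 →
      Ideal.Quotient.mk I (MvPolynomial.monomial α 1) ∈ M) → Ideal.Quotient.mk I p ∈ M := by
    intro p hp
    rw [p.as_sum, map_sum]
    refine Submodule.sum_mem _ fun α hα => ?_
    have h4 : Ideal.Quotient.mk I (MvPolynomial.monomial α (p.coeff α)) =
        (algebraMap k (Algebra.adjoin k (Set.range fun j => Ideal.Quotient.mk I (f j))) (p.coeff α)) •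
          Ideal.Quotient.mk I (MvPolynomial.monomial α 1) := by
      show Ideal.Quotient.mk I (MvPolynomial.monomial α (p.coeff α)) =
        Ideal.Quotient.mk I (MvPolynomial.C (p.coeff α)) * Ideal.Quotient.mk I (MvPolynomial.monomial α 1)
      rw [← map_mul, MvPolynomial.C_mul_monomial, mul_one]
    rw [h4]
    exact M.smul_mem _ (hp α (MvPolynomial.mem_support_iff.mp hα))
  have hmon : ∀ d : ℕ, ∀ α : σ →₀ ℕ, Finsupp.weight wt α = d →
      Ideal.Quotient.mk I (MvPolynomial.monomial α 1) ∈ M := by
    intro d
    induction d using Nat.strong_induction_on with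
    | _ d ih =>
      intro α hα
      by_cases hlt : ∀ u, α u < N
      · rw [hM]
        refine Submodule.subset_span ?_
        rw [hS]
        exact ⟨α, hlt, rfl⟩
      · push Not at hlt
        obtain ⟨u, hu⟩ := hlt
        obtain ⟨a, g, ha, hg, hX⟩ := h2 u
        have hle : Finsupp.single u N ≤ α := Finsupp.single_le_iff.mpr hu
        have h5 : (MvPolynomial.monomial α 1 : MvPolynomial σ k) =
            MvPolynomial.monomial (α - Finsupp.single u N) 1 * MvPolynomial.X u ^ N := by
          rw [MvPolynomial.X_pow_eq_monomial, MvPolynomial.monomial_mul, one_mul, tsub_add_cancel_of_le hle]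
        rw [h5, hX, mul_add, map_add, Finset.mul_sum, map_sum]
        have h6 : Ideal.Quotient.mk I (MvPolynomial.monomial (α - Finsupp.single u N) 1 * a) = 0 :=
          Ideal.Quotient.eq_zero_iff_mem.mpr (I.mul_mem_left _ ha)
        rw [h6, zero_add]
        refine Submodule.sum_mem _ fun j _ => ?_
        have h7 : Ideal.Quotient.mk I (MvPolynomial.monomial (α - Finsupp.single u N) 1 * (g j * f j)) =
            (⟨Ideal.Quotient.mk I (f j), Algebra.subset_adjoin ⟨j, rfl⟩⟩ :
              Algebra.adjoin k (Set.range fun j => Ideal.Quotient.mk I (f j))) •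
                Ideal.Quotient.mk I (MvPolynomial.monomial (α - Finsupp.single u N) 1 * g j) := by
          show Ideal.Quotient.mk I (MvPolynomial.monomial (α - Finsupp.single u N) 1 * (g j * f j)) =
            Ideal.Quotient.mk I (f j) * Ideal.Quotient.mk I (MvPolynomial.monomial (α - Finsupp.single u N) 1 * g j)
          rw [← map_mul]
          congr 1
          ring
        rw [h7]
        refine M.smul_mem _ (hsum _ fun β hβ => ?_)
        rw [MvPolynomial.coeff_monomial_mul'] at hβ
        split_ifs at hβ with hle2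
        · rw [one_mul] at hβ
          have h8 := hg j _ hβ
          refine ih (Finsupp.weight wt β) ?_ β rfl
          have h9 : Finsupp.weight wt β = Finsupp.weight wt (β - (α - Finsupp.single u N)) +
              Finsupp.weight wt (α - Finsupp.single u N) := by
            rw [← map_add, tsub_add_cancel_of_le hle2]
          have h10 : Finsupp.weight wt α = Finsupp.weight wt (α - Finsupp.single u N) + N * wt u := by
            have h11 : Finsupp.weight wt (Finsupp.single u N) = N * wt u := by
              rw [Finsupp.weight_single, smul_eq_mul]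
            rw [← h11, ← map_add, tsub_add_cancel_of_le hle]
          have h12 := he j
          omega
        · exact absurd rfl hβ
  have htop : M = ⊤ := by
    rw [eq_top_iff]
    intro y _
    obtain ⟨p, rfl⟩ := Ideal.Quotient.mk_surjective y
    exact hsum p fun α _ => hmon _ α rfl
  have hfin : S.Finite := by
    rw [hS]
    refine Set.Finite.image _ ((Set.finite_Icc (0 : σ →₀ ℕ) (Finsupp.equivFunOnFinite.symm fun _ => N)).subset ?_)
    intro α hα
    refine ⟨bot_le, fun u => ?_⟩
    exact (hα u).le
  have hfm : Module.Finite (Algebra.adjoin k (Set.range fun j => Ideal.Quotient.mk I (f j))) (MvPolynomial σ k ⧸ I) :=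
    ⟨by rw [← htop, hM]; exact Submodule.fg_span hfin⟩
  exact Algebra.IsIntegral.isIntegral x

end Pool.Agent.Lib.MP_1e3e9c_agK
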