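import Mathlib

/-!
# LEMMA K, relations (leaf KR)

PROOF. `B = R ⧸ I` is noetherian, `I.minimalPrimes` is finite (`Ideal.finite_minimalPrimes_of_isNoetherianRing`), `sInf I.minimalPrimes = I.radical = I`. For every `P` in it `A = R ⧸ P` is a domain, and integral over the
subalgebra generated by the images `s` of the `f j` (map `R ⧸ I → R ⧸ P`, `Ideal.Quotient.factor`), so `Algebra.IsAlgebraic (Algebra.adjoin k s) A`; `exists_isTranscendenceBasis_subset (R := k) s` gives a transcendence basis `t ⊆ s`,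
so `trdeg ≤ card τ < h`, and the images of the `ρ b` are algebraically dependent (`AlgebraicIndependent.cardinalMk_le_trdeg`): there is `F P ≠ 0` with `aeval ρ (F P) ∈ P`.
`F` = the product of the `F P`.
-/

set_option autoImplicit false

namespace Pool.Agent.Lib.MP_1e3e9c_agK

private theorem KR_prime {k σ τ : Type} [Field k] [Fintype σ] [Fintype τ]
    (I P : Ideal (MvPolynomial σ k)) [P.IsPrime] (hIP : I ≤ P) (f : τ → MvPolynomial σ k)
    (hint : ∀ x : MvPolynomial σ k ⧸ I,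
      IsIntegral (Algebra.adjoin k (Set.range fun j => Ideal.Quotient.mk I (f j))) x)
    {h : ℕ} (ρ : Fin h → MvPolynomial σ k) (hh : Fintype.card τ < h) :
    ∃ F : MvPolynomial (Fin h) k, F ≠ 0 ∧ MvPolynomial.aeval ρ F ∈ P := by
  have hdom : IsDomain (MvPolynomial σ k ⧸ P) := Ideal.Quotient.isDomain P
  let φ : (MvPolynomial σ k ⧸ I) →ₐ[k] (MvPolynomial σ k ⧸ P) := Ideal.Quotient.factorₐ k hIP
  have hφ : ∀ p : MvPolynomial σ k, φ (Ideal.Quotient.mk I p) = Ideal.Quotient.mk P p := fun p => rfl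
  obtain ⟨s, hs⟩ : ∃ s : Set (MvPolynomial σ k ⧸ P), s = Set.range fun j => Ideal.Quotient.mk P (f j) := ⟨_, rfl⟩
  have hmem : ∀ b : Algebra.adjoin k (Set.range fun j => Ideal.Quotient.mk I (f j)),
      φ (b : MvPolynomial σ k ⧸ I) ∈ Algebra.adjoin k s := by
    intro b
    have h1 : φ (b : MvPolynomial σ k ⧸ I) ∈
        (Algebra.adjoin k (Set.range fun j => Ideal.Quotient.mk I (f j))).map φ := ⟨b, b.2, rfl⟩
    rw [AlgHom.map_adjoin] at h1
    have h2 : φ '' (Set.range fun j => Ideal.Quotient.mk I (f j)) = s := by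
      rw [hs]
      ext y
      constructor
      · rintro ⟨_, ⟨j, rfl⟩, rfl⟩
        exact ⟨j, rfl⟩
      · rintro ⟨j, rfl⟩
        exact ⟨_, ⟨j, rfl⟩, rfl⟩
    rw [h2] at h1
    exact h1
  let φ0 : Algebra.adjoin k (Set.range fun j => Ideal.Quotient.mk I (f j)) →ₐ[k] Algebra.adjoin k s :=
    (φ.comp (Algebra.adjoin k (Set.range fun j => Ideal.Quotient.mk I (f j))).val).codRestrict _ hmem
  have halg : Algebra.IsAlgebraic (Algebra.adjoin k s) (MvPolynomial σ k ⧸ P) := by
    refine ⟨fun y => ?_⟩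
    obtain ⟨p, rfl⟩ := Ideal.Quotient.mk_surjective y
    have h1 : IsIntegral (Algebra.adjoin k s) (φ (Ideal.Quotient.mk I p)) :=
      IsIntegral.map_of_comp_eq (φ0 : _ →+* Algebra.adjoin k s) (φ : _ →+* (MvPolynomial σ k ⧸ P)) rfl (hint _)
    exact h1.isAlgebraic
  have hfs : FaithfulSMul k (MvPolynomial σ k ⧸ P) :=
    (faithfulSMul_iff_algebraMap_injective k (MvPolynomial σ k ⧸ P)).mpr (algebraMap k _).injective
  obtain ⟨t, hts, ht⟩ := exists_isTranscendenceBasis_subset (R := k) s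
  have hnot : ¬ AlgebraicIndependent k fun b => Ideal.Quotient.mk P (ρ b) := by
    intro hi
    have h1 := hi.cardinalMk_le_trdeg
    rw [← ht.cardinalMk_eq_trdeg] at h1
    have h2 : Cardinal.mk t ≤ Cardinal.mk s := Cardinal.mk_le_mk_of_subset hts
    have h3 : Cardinal.mk s ≤ Cardinal.mk τ := by
      rw [hs]
      exact Cardinal.mk_range_le
    have h4 := (h1.trans h2).trans h3
    rw [Cardinal.mk_fin, Cardinal.mk_fintype] at h4
    exact absurd (Nat.cast_le.mp h4) (not_le.mpr hh)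
  rw [algebraicIndependent_iff] at hnot
  push Not at hnot
  obtain ⟨F, hF, hF0⟩ := hnot
  refine ⟨F, hF0, ?_⟩
  rw [← Ideal.Quotient.eq_zero_iff_mem, ← hF]
  have h1 := MvPolynomial.comp_aeval_apply ρ (Ideal.Quotient.mkₐ k P) F
  exact h1

theorem exists_relation {k σ τ : Type} [Field k] [Fintype σ] [Fintype τ]
    (I : Ideal (MvPolynomial σ k)) (hI : I.IsRadical) (f : τ → MvPolynomial σ k)
    (hint : ∀ x : MvPolynomial σ k ⧸ I,
      IsIntegral (Algebra.adjoin k (Set.range fun j => Ideal.Quotient.mk I (f j))) x)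
    {h : ℕ} (ρ : Fin h → MvPolynomial σ k) (hh : Fintype.card τ < h) :
    ∃ F : MvPolynomial (Fin h) k, F ≠ 0 ∧ MvPolynomial.aeval ρ F ∈ I := by
  classical
  have hfin : I.minimalPrimes.Finite := Ideal.finite_minimalPrimes_of_isNoetherianRing _ I
  have h1 : ∀ P : Ideal (MvPolynomial σ k), ∃ F : MvPolynomial (Fin h) k, F ≠ 0 ∧
      (P ∈ I.minimalPrimes → MvPolynomial.aeval ρ F ∈ P) := by
    intro P
    by_cases hP : P ∈ I.minimalPrimes
    · have hprime : P.IsPrime := hP.1.1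
      obtain ⟨F, hF0, hF⟩ := KR_prime I P hP.1.2 f hint ρ hh
      exact ⟨F, hF0, fun _ => hF⟩
    · exact ⟨1, one_ne_zero, fun h => absurd h hP⟩
  choose F hF0 hF using h1
  refine ⟨∏ P ∈ hfin.toFinset, F P, Finset.prod_ne_zero_iff.mpr fun P _ => hF0 P, ?_⟩
  have h2 : MvPolynomial.aeval ρ (∏ P ∈ hfin.toFinset, F P) ∈ sInf I.minimalPrimes := by
    rw [Ideal.mem_sInf]
    intro P hP
    rw [map_prod]
    exact Ideal.mem_of_dvd P (Finset.dvd_prod_of_mem _ (hfin.mem_toFinset.mpr hP)) (hF P hP)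
  have h3 : sInf I.minimalPrimes = I := Ideal.sInf_minimalPrimes.trans hI.radical
  exact h3.le h2

end Pool.Agent.Lib.MP_1e3e9c_agK
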