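import Mathlib
import Pool.Agent.Lib.MP_1e3e9c_agK.KI
import Pool.Agent.Lib.MP_1e3e9c_agK.KN
import Pool.Agent.Lib.MP_1e3e9c_agK.KR

set_option autoImplicit false

namespace Pool.Agent.Lib.MP_1e3e9c_agK

open Pool.Agent.Lib.MP_1e3e9c_agR

variable {k : Type} [Field k] {n D : ℕ} {w : Fin (n + 1) → ℕ} {S : Set (MvPolynomial (Fin (n + 1)) k)}

theorem coeff_crv (v : Fin (n + 1) → k) (c : Un w D → k) (x : Un w D) :
    (crv w D v c x.1).coeff ((x.2 : ℕ) + 1) = c x := by
  rw [← crvB_eq, coeff_crvB, dif_pos x.2.2]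

theorem crv_lin (b : k) (N : ℕ) : ((1 + Polynomial.C b * Polynomial.X : Polynomial k) ^ N).coeff 1 = N * b := by
  have h := Polynomial.coeff_derivative ((1 + Polynomial.C b * Polynomial.X : Polynomial k) ^ N) 0
  rw [zero_add, Nat.cast_zero, zero_add, mul_one] at h
  rw [← h, Polynomial.coeff_zero_eq_eval_zero, Polynomial.derivative_pow]
  simp

/-- the equations `G = 0`, `c_(i₀, 0) = 0` kill the family -/
theorem only_zero [IsAlgClosed k] [CharZero k] {g M : ℕ} (hw : ∀ i, 0 < w i)
    {G : MvPolynomial (Fin (n + 1)) k} (hG : G.IsWeightedHomogeneous w g)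
    {v : Fin (n + 1) → k} {i₀ : Fin (n + 1)} (hv : v i₀ ≠ 0) (hGv : MvPolynomial.eval v G = 0)
    (hX : ¬ HasRat w (insert G S)) {A : Ideal (MvPolynomial (Un w D) k)} (hF : IsFam w S D v M A)
    (h0 : 0 < w i₀ * D) {c : Un w D → k} (hc : ∀ q ∈ A, MvPolynomial.eval c q = 0)
    (hc0 : c ⟨i₀, ⟨0, h0⟩⟩ = 0)
    (hcG : ∀ j, 1 ≤ j → j ≤ g * D → (MvPolynomial.aeval (crv w D v c) G).coeff j = 0) : c = 0 := by
  classical
  by_contra hne
  -- the curve is in `G = 0`
  have hG0 : MvPolynomial.aeval (crv w D v c) G = 0 := by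
    ext j
    rw [Polynomial.coeff_zero]
    rcases Nat.eq_zero_or_pos j with h1 | h1
    · rw [h1, Polynomial.coeff_zero_eq_eval_zero, ← eval_val, val_crv_zero, hGv]
    · rcases Nat.lt_or_ge (g * D) j with h2 | h2
      · exact Polynomial.coeff_eq_zero_of_natDegree_lt
          (lt_of_le_of_lt (natDegree_le (natDegree_crv v c) hG) h2)
      · exact hcG j h1 h2
  -- it is not trivial
  have hnt : ¬ Triv w D v c := by
    rintro ⟨b, hb⟩
    have h1 : (v i₀) * ((w i₀ * D : ℕ) * b) = 0 := by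
      rw [← crv_lin, ← Polynomial.coeff_C_mul, ← hb i₀]
      have h := coeff_crv v c ⟨i₀, ⟨0, h0⟩⟩
      rw [hc0] at h
      exact h
    have hb0 : b = 0 := by
      rcases mul_eq_zero.1 h1 with h | h
      · exact absurd h hv
      · rcases mul_eq_zero.1 h with h | h
        · exact absurd (Nat.cast_eq_zero.1 h) h0.ne'
        · exact h
    apply hne
    funext x
    rw [← coeff_crv v c x, hb, hb0, map_zero, zero_mul, add_zero, one_pow, mul_one,
      Polynomial.coeff_C_succ, Pi.zero_apply]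
  have hnc : ¬ ∀ t, ∃ a : k, ∀ i, (crv w D v c i).eval t = a ^ w i * v i :=
    fun h => hnt (hF.const c hc h)
  push Not at hnc
  obtain ⟨t, ht⟩ := hnc
  apply hX
  refine ⟨crv w D v c, ?_, 0, t, ?_, ?_, ?_⟩
  · intro s P hP
    rcases Set.mem_insert_iff.1 hP with rfl | hP
    · rw [eval_val, hG0, Polynomial.eval_zero]
    · exact hF.base c hc s P hP
  · rw [val_crv_zero]
    exact fun h => hv (congrFun h i₀)
  · intro h
    obtain ⟨i, hi⟩ := ht 0
    apply hi
    rw [zero_pow (hw i).ne', zero_mul]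
    exact congrFun h i
  · rintro ⟨a, -, ha⟩
    rw [val_crv_zero] at ha
    obtain ⟨i, hi⟩ := ht a
    exact hi (ha i)

/-- the number of independent directions -/
theorem dir_le [IsAlgClosed k] [CharZero k] {g M c m : ℕ} (hw : ∀ i, 0 < w i) (hD : 0 < D)
    (hS : ∀ P ∈ S, ∃ m, P.IsWeightedHomogeneous w m)
    {G : MvPolynomial (Fin (n + 1)) k} (hG : G.IsWeightedHomogeneous w g)
    {v : Fin (n + 1) → k} (hv : v ≠ 0) (hGv : MvPolynomial.eval v G = 0)
    (hX : ¬ HasRat w (insert G S)) {A : Ideal (MvPolynomial (Un w D) k)} (hF : IsFam w S D v M A)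
    {h : MvPolynomial (Un w D) k} (hA : ∀ c ∈ BB w S D v h, ∀ q ∈ A, MvPolynomial.eval c q = 0)
    {c₀ : Un w D → k} (hc₀ : MvPolynomial.eval c₀ h ≠ 0)
    (hp : ∀ P ∈ S, MvPolynomial.aeval (crv w D v c₀) P = 0) (hL : LCI S c v)
    (hV : Vals w S D (crv w D v c₀)) (hV' : ValsInf w S D (crv w D v c₀))
    (u : Fin m → Fin (n + 1) → Polynomial k) (hu : ∀ j, UU w S D (crv w D v c₀) (u j))
    (hli : LinearIndependent k u) : m ≤ g * D + 1 := by
  classical
  by_contra hlt
  push Not at hlt
  have hae : ∀ (c : Un w D → k) (q : MvPolynomial (Un w D) k), MvPolynomial.aeval c q = MvPolynomial.eval c q :=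
    fun c q => DFunLike.congr_fun (MvPolynomial.coe_aeval_eq_eval c) q
  obtain ⟨i₀, hi₀⟩ : ∃ i, v i ≠ 0 := by
    by_contra h
    push Not at h
    exact hv (funext h)
  have h0 : 0 < w i₀ * D := Nat.mul_pos (hw i₀) hD
  obtain ⟨j, h', hh', hc', hle⟩ := exists_component A hA hc₀
  obtain ⟨I, hI⟩ : ∃ I, I = MvPolynomial.vanishingIdeal k (BB w S D v h') := ⟨_, rfl⟩
  obtain ⟨f, hf⟩ : ∃ f : Option (Fin (g * D)) → MvPolynomial (Un w D) k,
    f = fun o => o.elim (MvPolynomial.X (⟨i₀, ⟨0, h0⟩⟩ : Un w D)) fun j =>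
      (eqn w D v G).coeff ((j : ℕ) + 1) := ⟨_, rfl⟩
  have hint := integral_of_zero (wtU w D) (fun x => Nat.succ_pos _) I
    (fun q hq d => by
      rw [hI] at hq ⊢
      exact BB_hom hh' hq d) f (fun o => o.elim 1 fun j => (j : ℕ) + 1)
    (by rintro (_ | j) <;> simp) (by
      rintro (_ | j)
      · rw [hf]
        exact MvPolynomial.isWeightedHomogeneous_X _ _ _
      · rw [hf]
        exact WH_eqn v G _) (by
      intro c hcI hcf
      refine only_zero hw hG hi₀ hGv hX hF h0 (fun q hq => hcI q (by rw [hI]; exact hle hq)) ?_ ?_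
      · have h1 := hcf none
        rw [hf] at h1
        simpa only [Option.elim_none, MvPolynomial.eval_X] using h1
      · intro j hj1 hj2
        have h1 := hcf (some ⟨j - 1, by omega⟩)
        rw [hf] at h1
        simp only [Option.elim_some] at h1
        rw [eval_eqn, Nat.sub_add_cancel hj1] at h1
        exact h1)
  have hrad : I.IsRadical := by
    rw [hI]
    intro q hq
    obtain ⟨N, hN⟩ := hq
    rw [MvPolynomial.mem_vanishingIdeal_iff] at hN ⊢
    intro x hx
    have h1 := hN x hx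
    rw [map_pow] at h1
    exact eq_zero_of_pow_eq_zero h1
  -- the dual basis
  obtain ⟨x, hx⟩ : ∃ x : Fin m → Un w D → k, x = fun b y => (u b y.1).coeff (y.2 : ℕ) := ⟨_, rfl⟩
  have hxli : LinearIndependent k x := by
    rw [Fintype.linearIndependent_iff] at hli ⊢
    intro a ha
    refine hli a ?_
    funext i
    ext l
    rw [Finset.sum_apply, Polynomial.finsetSum_coeff, Pi.zero_apply, Polynomial.coeff_zero]
    rcases Nat.lt_or_ge l (w i * D) with h1 | h1
    · have h2 := congrFun ha ⟨i, ⟨l, h1⟩⟩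
      rw [Finset.sum_apply, Pi.zero_apply, hx] at h2
      refine Eq.trans (Finset.sum_congr rfl fun b _ => ?_) h2
      rw [Pi.smul_apply, Polynomial.coeff_smul, Pi.smul_apply]
    · refine Finset.sum_eq_zero fun b _ => ?_
      rw [Pi.smul_apply, Polynomial.coeff_smul,
        Polynomial.coeff_eq_zero_of_natDegree_lt (lt_of_lt_of_le ((hu b).1 i) h1), smul_zero]
  have hker : LinearMap.ker (Fintype.linearCombination k x) = ⊥ := by
    rw [LinearMap.ker_eq_bot]
    exact linearIndependent_iff_injective_fintypeLinearCombination.1 hxli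
  obtain ⟨φ, hφ⟩ := LinearMap.exists_leftInverse_of_injective _ hker
  have hφ' : ∀ y : Fin m → k, φ (∑ b, y b • x b) = y := by
    intro y
    have h2 := LinearMap.congr_fun hφ y
    rw [LinearMap.comp_apply, Fintype.linearCombination_apply] at h2
    exact h2
  obtain ⟨ρ, hρ⟩ : ∃ ρ : Fin m → MvPolynomial (Un w D) k, ρ = fun b =>
    ∑ y : Un w D, MvPolynomial.C (φ (Pi.single y 1) b) * (MvPolynomial.X y - MvPolynomial.C (c₀ y)) := ⟨_, rfl⟩
  obtain ⟨F, hF0, hFI⟩ := exists_relation I hrad f hint ρ (by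
    rw [Fintype.card_option, Fintype.card_fin]
    exact hlt)
  refine no_relation F hF0 fun y => ?_
  -- the arc in the direction `y`
  have hUU : UU w S D (crv w D v c₀) (∑ b, y b • u b) := by
    constructor
    · intro i
      rw [Finset.sum_apply]
      refine lt_of_le_of_lt (Polynomial.natDegree_sum_le_of_forall_le (n := w i * D - 1) _ _ fun b _ => ?_)
        (Nat.sub_lt (Nat.mul_pos (hw i) hD) Nat.one_pos)
      rw [Pi.smul_apply]
      have h1 := (hu b).1 i
      exact (Polynomial.natDegree_smul_le _ _).trans (by omega)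
    · intro P hP
      have h1 : ∀ i, MvPolynomial.aeval (crv w D v c₀) (MvPolynomial.pderiv i P) * (∑ b, y b • u b) i =
          ∑ b, Polynomial.C (y b) * (MvPolynomial.aeval (crv w D v c₀) (MvPolynomial.pderiv i P) * u b i) := by
        intro i
        rw [Finset.sum_apply, Finset.mul_sum]
        refine Finset.sum_congr rfl fun b _ => ?_
        rw [Pi.smul_apply, Polynomial.smul_eq_C_mul]
        ring
      simp only [h1]
      rw [Finset.sum_comm]
      refine Finset.sum_eq_zero fun b _ => ?_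
      rw [← Finset.mul_sum, (hu b).2 P hP, mul_zero]
  obtain ⟨T, hT0, hT1, hTd, hTv, hTS⟩ := arcs hw hD hS (natDegree_crv v c₀) hp
    (by rw [val_crv_zero]; exact hL) hV hV' hUU
  have hkill := kill (S := S) (h := h') (q := MvPolynomial.aeval ρ F) hT0 hTd hTv hTS hc' (by
    intro c hc1 hc2
    rw [hI] at hFI
    have h1 := MvPolynomial.mem_vanishingIdeal_iff.1 hFI c ⟨hc1, hc2⟩
    rw [hae] at h1
    exact h1)
  have hz : ∀ b, MvPolynomial.aeval (gm w D T) (ρ b) =
      ∑ x : Un w D, PowerSeries.C (φ (Pi.single x 1) b) * (gm w D T x - PowerSeries.C (c₀ x)) := by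
    intro b
    rw [hρ]
    simp only [map_sum, map_mul, map_sub, MvPolynomial.aeval_C, MvPolynomial.aeval_X,
      PowerSeries.algebraMap_apply, Algebra.algebraMap_self, RingHom.id_apply]
  have hg0 : ∀ x, PowerSeries.coeff 0 (gm w D T x) = c₀ x := by
    intro x
    unfold gm
    rw [PowerSeries.coeff_mk, hT0, coeff_crv]
  have hg1 : ∀ z : Un w D, PowerSeries.coeff 1 (gm w D T z) = (∑ b, y b • x b) z := by
    intro z
    unfold gm
    rw [PowerSeries.coeff_mk, hT1, Polynomial.coeff_X_mul, Finset.sum_apply, Finset.sum_apply,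
      Polynomial.finsetSum_coeff]
    refine Finset.sum_congr rfl fun b _ => ?_
    rw [Pi.smul_apply, Polynomial.coeff_smul, Pi.smul_apply, hx]
  refine ⟨fun b => MvPolynomial.aeval (gm w D T) (ρ b), fun b => ?_, fun b => ?_, ?_⟩
  · show PowerSeries.coeff 0 (MvPolynomial.aeval (gm w D T) (ρ b)) = 0
    rw [hz, map_sum]
    refine Finset.sum_eq_zero fun x _ => ?_
    rw [PowerSeries.coeff_C_mul, map_sub, hg0, PowerSeries.coeff_zero_C, sub_self, mul_zero]
  · show PowerSeries.coeff 1 (MvPolynomial.aeval (gm w D T) (ρ b)) = y b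
    rw [hz, map_sum]
    have h1 : ∀ z : Un w D, PowerSeries.coeff 1 (PowerSeries.C (φ (Pi.single z 1) b) *
        (gm w D T z - PowerSeries.C (c₀ z))) = (∑ b, y b • x b) z * φ (Pi.single z 1) b := by
      intro z
      rw [PowerSeries.coeff_C_mul, map_sub, hg1, PowerSeries.coeff_C, if_neg one_ne_zero, sub_zero, mul_comm]
    simp only [h1]
    have h2 := LinearMap.pi_apply_eq_sum_univ φ (∑ b, y b • x b)
    rw [hφ'] at h2
    have h3 := congrFun h2 b
    rw [Finset.sum_apply] at h3
    refine Eq.trans (Finset.sum_congr rfl fun z _ => ?_) h3.symm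
    have h6 : (Pi.single z (1 : k) : Un w D → k) = fun j => if z = j then 1 else 0 := by
      funext z'
      rw [Pi.single_apply]
      by_cases h4 : z' = z
      · rw [if_pos h4, if_pos h4.symm]
      · rw [if_neg h4, if_neg (fun h5 => h4 h5.symm)]
    rw [Pi.smul_apply, smul_eq_mul, h6]
  · have h1 : MvPolynomial.aeval (fun b => MvPolynomial.aeval (gm w D T) (ρ b)) F =
        MvPolynomial.aeval (gm w D T) (MvPolynomial.aeval ρ F) := by
      rw [← MvPolynomial.comp_aeval_apply]
    rw [h1]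
    exact hkill

end Pool.Agent.Lib.MP_1e3e9c_agK
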