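import Mathlib
import Pool.Agent.Lib.MP_1e3e9c_agR.XDefs

/-!
# MP_1e3e9c_ag, project K (smooth varieties): definitions

`val`, `crv`, `Un`, `HasRat`, `Triv`, `gr`, `Tg`, `mi`, `Smo` are those of project R (`RDefs.lean`, `XDefs.lean`).
-/

set_option autoImplicit false

namespace Pool.Agent.Lib.MP_1e3e9c_agK

open Pool.Agent.Lib.MP_1e3e9c_agR

variable {k : Type} [Field k] {n : ℕ}

/-- `v` is a smooth point of the zero set of `S`: there are `P_1, .., P_c` in the ideal of `S` with linearly independent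
gradients at `v` which generate the ideal of `S` near `v`. -/
def SmV (S : Set (MvPolynomial (Fin (n + 1)) k)) (v : Fin (n + 1) → k) : Prop :=
  ∃ (c : ℕ) (P : Fin c → MvPolynomial (Fin (n + 1)) k) (h : MvPolynomial (Fin (n + 1)) k),
    (∀ l, P l ∈ Ideal.span S) ∧ MvPolynomial.eval v h ≠ 0 ∧
    (∀ Q ∈ S, h * Q ∈ Ideal.span (Set.range P)) ∧ LinearIndependent k fun l => gr (P l) v

/-- The tangent space at `v` of the zero set of `S`. -/
def Kr (S : Set (MvPolynomial (Fin (n + 1)) k)) (v : Fin (n + 1) → k) :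
    Submodule k (Fin (n + 1) → k) where
  carrier := {e | ∀ P ∈ S, ∑ i, gr P v i * e i = 0}
  add_mem' := by
    intro a b ha hb P hP
    have h1 := ha P hP
    have h2 := hb P hP
    simp only [Pi.add_apply, mul_add, Finset.sum_add_distrib, h1, h2, add_zero]
  zero_mem' := by
    intro P _
    simp
  smul_mem' := by
    intro c a ha P hP
    have h1 := ha P hP
    simp only [Pi.smul_apply, smul_eq_mul]
    have h2 : ∑ i, gr P v i * (c * a i) = c * ∑ i, gr P v i * a i := by
      rw [Finset.mul_sum]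
      exact Finset.sum_congr rfl fun i _ => by ring
    rw [h2, h1, mul_zero]

/-- The tuples `u`, `deg u_i < w_i D`, which are tangent to the zero set of `S` along the curve `f`. -/
def Us (w : Fin (n + 1) → ℕ) (D : ℕ) (S : Set (MvPolynomial (Fin (n + 1)) k))
    (f : Fin (n + 1) → Polynomial k) : Submodule k (Fin (n + 1) → Polynomial k) where
  carrier := {u | (∀ i, u i ∈ Polynomial.degreeLT k (w i * D)) ∧ Tg S f u}
  add_mem' := by
    rintro a b ⟨ha, ha'⟩ ⟨hb, hb'⟩
    refine ⟨fun i => Submodule.add_mem _ (ha i) (hb i), fun P hP => ?_⟩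
    have h1 := ha' P hP
    have h2 := hb' P hP
    simp only [Pi.add_apply, mul_add, Finset.sum_add_distrib, h1, h2, add_zero]
  zero_mem' := by
    refine ⟨fun i => Submodule.zero_mem _, fun P _ => ?_⟩
    simp
  smul_mem' := by
    rintro c a ⟨ha, ha'⟩
    refine ⟨fun i => Submodule.smul_mem _ c (ha i), fun P hP => ?_⟩
    have h1 := ha' P hP
    simp only [Pi.smul_apply, mul_smul_comm]
    rw [← Finset.smul_sum, h1, smul_zero]

/-- The leading coefficients of the curve `f` of degree `D`: its point `t = ∞`. -/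
def ld (w : Fin (n + 1) → ℕ) (D : ℕ) (f : Fin (n + 1) → Polynomial k) : Fin (n + 1) → k :=
  fun i => (f i).coeff (w i * D)

/-- The nonconstant curves of degree `D` through `v` in the zero set of `S`. -/
def Cv (w : Fin (n + 1) → ℕ) (D : ℕ) (S : Set (MvPolynomial (Fin (n + 1)) k))
    (v : Fin (n + 1) → k) : Set (Un w D → k) :=
  {c | (∀ t, ∀ P ∈ S, MvPolynomial.eval (val (crv w D v c) t) P = 0) ∧
    ¬ ∀ t, ∃ a : k, ∀ i, (crv w D v c i).eval t = a ^ w i * v i}

/-- The coefficients of an arc `F` (in the variable `ε`, the coefficients are polynomials in `t`). -/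
noncomputable def co {w : Fin (n + 1) → ℕ} {D : ℕ} (F : Fin (n + 1) → PowerSeries (Polynomial k)) :
    Un w D → PowerSeries k :=
  fun x => PowerSeries.mk fun m => (PowerSeries.coeff m (F x.1)).coeff ((x.2 : ℕ) + 1)

end Pool.Agent.Lib.MP_1e3e9c_agK
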