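import Mathlib
import Pool.Agent.Lib.MP_1e3e9c_agK.KDefs
import Pool.Agent.Lib.MP_1e3e9c_agR.B5

/-!
# MP_1e3e9c_ag, project K, leaf K3: the values of the tangent tuples at a point

PROOF. Every `u ∈ Us` has its value `u(a) = (eval a (u i))_i` in `Kr S (val f a)`: evaluate `∑ aeval f (pderiv i P) * u i = 0` at `a`
(`eval_val` in `MP_1e3e9c_agR/B5.lean`, or `Polynomial.eval` of `MvPolynomial.aeval`). Induction on `natDegree (mi s I)` (strong, for all `s`, with `I` fixed, `mi s I ≠ 0`): if
the vectors `s j (a)`, `j ≤ N`, are linearly independent, they are `N + 1` independent vectors of `Kr S (val f a)`, of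
dimension `≤ N + 1`, so they span it and `e` is a combination of them. Otherwise there is a relation `∑ λ_j s j (a) = 0` with `λ_(j₀) = 1`. All
entries of `∑ λ_j s_j` are divisible by `X - C a`; let `s'` be the quotient. It is in `Us` (the degree drops; `Tg`: cancel `X - C a ≠ 0`).
Replace `s j₀` by `s'`: `(X - C a) * mi (new) I = mi s I` (the determinant is linear in the column `j₀` and alternating:
`Matrix.det_updateCol_...`, the column `j₀` of `∑ λ_j s_j` can be replaced by `s j₀`: `Matrix.det_updateCol_sum` or
`Matrix.det_updateCol_eq_det...`), so `mi (new) I ≠ 0` has smaller degree.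
-/

set_option autoImplicit false

namespace Pool.Agent.Lib.MP_1e3e9c_agK

open Pool.Agent.Lib.MP_1e3e9c_agR

private theorem K3_eval {k : Type} [Field k] {n D : ℕ} {w : Fin (n + 1) → ℕ}
    {S : Set (MvPolynomial (Fin (n + 1)) k)} {f u : Fin (n + 1) → Polynomial k}
    (hu : u ∈ Us w D S f) (a : k) : val u a ∈ Kr S (val f a) := by
  show ∀ P ∈ S, ∑ i, gr P (val f a) i * val u a i = 0
  intro P hP
  have h := hu.2 P hP
  have h2 := congrArg (Polynomial.eval a) h
  rw [Polynomial.eval_finsetSum, Polynomial.eval_zero] at h2
  rw [← h2]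
  refine Finset.sum_congr rfl fun i _ => ?_
  rw [Polynomial.eval_mul, ← eval_val]
  rfl

private theorem K3_main {k : Type} [Field k] {n D N : ℕ} {w : Fin (n + 1) → ℕ}
    {S : Set (MvPolynomial (Fin (n + 1)) k)} {f : Fin (n + 1) → Polynomial k}
    (a : k) (hk : Module.finrank k (Kr S (val f a)) ≤ N + 1)
    (e : Fin (n + 1) → k) (he : e ∈ Kr S (val f a)) (I : Fin (N + 1) → Fin (n + 1)) (d : ℕ) :
    ∀ s : Fin (N + 1) → Fin (n + 1) → Polynomial k, (∀ j, s j ∈ Us w D S f) → mi s I ≠ 0 →
      (mi s I).natDegree = d → ∃ u ∈ Us w D S f, ∀ i, (u i).eval a = e i := by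
  classical
  induction d using Nat.strong_induction_on with
  | _ d ih =>
    intro s hs hI hd
    by_cases hli : LinearIndependent k (fun j => val (s j) a)
    · have h1 : Submodule.span k (Set.range fun j => val (s j) a) ≤ Kr S (val f a) := by
        rw [Submodule.span_le]
        rintro _ ⟨j, rfl⟩
        exact K3_eval (hs j) a
      have h2 : Module.finrank k (Submodule.span k (Set.range fun j => val (s j) a)) = N + 1 := by
        rw [finrank_span_eq_card hli, Fintype.card_fin]
      have h3 := Submodule.eq_of_le_of_finrank_le h1 (by rw [h2]; exact hk)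
      rw [← h3] at he
      obtain ⟨c, hc⟩ := (Submodule.mem_span_range_iff_exists_fun k).1 he
      refine ⟨∑ j, c j • s j, Submodule.sum_mem _ fun j _ => Submodule.smul_mem _ _ (hs j), fun i => ?_⟩
      rw [← hc, Finset.sum_apply, Finset.sum_apply, Polynomial.eval_finsetSum]
      refine Finset.sum_congr rfl fun j _ => ?_
      rw [Pi.smul_apply, Pi.smul_apply, Polynomial.eval_smul]
      rfl
    · rw [Fintype.not_linearIndependent_iff] at hli
      obtain ⟨g, hg, j0, hj0⟩ := hli
      obtain ⟨t, ht⟩ : ∃ t : Fin (n + 1) → Polynomial k, t = ∑ j, g j • s j := ⟨_, rfl⟩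
      have htU : t ∈ Us w D S f := by
        rw [ht]
        exact Submodule.sum_mem _ fun j _ => Submodule.smul_mem _ _ (hs j)
      have ht0 : ∀ i, (t i).IsRoot a := by
        intro i
        have h1 := congrFun hg i
        rw [Finset.sum_apply] at h1
        rw [Polynomial.IsRoot, ht, Finset.sum_apply, Polynomial.eval_finsetSum]
        refine Eq.trans (Finset.sum_congr rfl fun j _ => ?_) h1
        rw [Pi.smul_apply, Pi.smul_apply, Polynomial.eval_smul]
        rfl
      obtain ⟨r, hr⟩ : ∃ r : Fin (n + 1) → Polynomial k,
          r = fun i => t i /ₘ (Polynomial.X - Polynomial.C a) := ⟨_, rfl⟩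
      have hrt : ∀ i, (Polynomial.X - Polynomial.C a) * r i = t i := by
        intro i
        rw [hr]
        exact Polynomial.mul_divByMonic_eq_iff_isRoot.2 (ht0 i)
      have hX : (Polynomial.X - Polynomial.C a : Polynomial k) ≠ 0 := Polynomial.X_sub_C_ne_zero a
      have hrU : r ∈ Us w D S f := by
        refine ⟨fun i => ?_, fun P hP => ?_⟩
        · rw [Polynomial.mem_degreeLT]
          have h1 := htU.1 i
          rw [Polynomial.mem_degreeLT] at h1
          rw [hr]
          exact lt_of_le_of_lt (Polynomial.degree_divByMonic_le _ _) h1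
        · have h1 := htU.2 P hP
          have h2 : (Polynomial.X - Polynomial.C a) *
              ∑ i, MvPolynomial.aeval f (MvPolynomial.pderiv i P) * r i = 0 := by
            rw [← h1, Finset.mul_sum]
            refine Finset.sum_congr rfl fun i _ => ?_
            rw [← hrt i]
            ring
          rcases mul_eq_zero.1 h2 with h3 | h3
          · exact absurd h3 hX
          · exact h3
      have hdet : (Polynomial.X - Polynomial.C a) * mi (Function.update s j0 r) I =
          Polynomial.C (g j0) * mi s I := by
        obtain ⟨A, hA⟩ : ∃ A : Matrix (Fin (N + 1)) (Fin (N + 1)) (Polynomial k),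
            A = Matrix.of fun x b => s b (I x) := ⟨_, rfl⟩
        have h1 : (Matrix.of fun x b => (Function.update s j0 r) b (I x)) =
            A.updateCol j0 (fun x => r (I x)) := by
          ext x b
          rw [Matrix.of_apply, Matrix.updateCol_apply, hA]
          by_cases hb : b = j0
          · rw [if_pos hb, hb, Function.update_self]
          · rw [if_neg hb, Function.update_of_ne hb]
            rfl
        have h2 : (Polynomial.X - Polynomial.C a) • (fun x => r (I x)) =
            fun x => ∑ j, (Polynomial.C (g j)) • A x j := by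
          funext x
          rw [Pi.smul_apply, smul_eq_mul, hrt, ht, Finset.sum_apply, hA]
          refine Finset.sum_congr rfl fun j _ => ?_
          show g j • s j (I x) = Polynomial.C (g j) * s j (I x)
          rw [Polynomial.smul_eq_C_mul]
        have h3 := Matrix.det_updateCol_smul A j0 (Polynomial.X - Polynomial.C a) (fun x => r (I x))
        rw [h2, Matrix.det_updateCol_sum] at h3
        unfold mi
        rw [h1, ← h3, hA]
        rfl
      have hne : mi (Function.update s j0 r) I ≠ 0 := by
        intro h0
        rw [h0, mul_zero] at hdet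
        exact (mul_ne_zero (Polynomial.C_ne_zero.2 hj0) hI) hdet.symm
      have hdeg : (mi (Function.update s j0 r) I).natDegree < d := by
        have h1 := congrArg Polynomial.natDegree hdet
        rw [Polynomial.natDegree_mul hX hne, Polynomial.natDegree_X_sub_C,
          Polynomial.natDegree_C_mul hj0, hd] at h1
        omega
      refine ih _ hdeg (Function.update s j0 r) (fun j => ?_) hne rfl
      by_cases hj : j = j0
      · rw [hj, Function.update_self]
        exact hrU
      · rw [Function.update_of_ne hj]
        exact hs j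

theorem val_surj {k : Type} [Field k] {n D N : ℕ} {w : Fin (n + 1) → ℕ}
    {S : Set (MvPolynomial (Fin (n + 1)) k)} {f : Fin (n + 1) → Polynomial k}
    (s : Fin (N + 1) → Fin (n + 1) → Polynomial k) (hs : ∀ j, s j ∈ Us w D S f)
    (hne : ∃ I, mi s I ≠ 0) (a : k) (hk : Module.finrank k (Kr S (val f a)) ≤ N + 1)
    (e : Fin (n + 1) → k) (he : e ∈ Kr S (val f a)) :
    ∃ u ∈ Us w D S f, ∀ i, (u i).eval a = e i := by
  obtain ⟨I, hI⟩ := hne
  exact K3_main a hk e he I _ s hs hI rfl

end Pool.Agent.Lib.MP_1e3e9c_agK
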