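import Mathlib
import Pool.Agent.Lib.MP_1e3e9c_agK.KDefs
import Pool.Agent.Lib.MP_1e3e9c_agR.B5

/-!
# MP_1e3e9c_ag, project K, leaf K4: the coefficient at infinity

PROOF. `P` is weighted homogeneous of weight `m`. For every `i` with `w i ≤ m` the polynomial `pderiv i P` is weighted homogeneous of weight
`m - w i` (`MvPolynomial.IsWeightedHomogeneous.pderiv` or from the monomials), so `natDegree (aeval f (pderiv i P)) ≤ (m - w i) * D`
(`natDegree_le` in `MP_1e3e9c_agR/B5.lean`) and its coefficient at `(m - w i) * D` is `eval (ld w D f) (pderiv i P)` (monomials: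
`Polynomial.coeff_prod_of_natDegree_le`, or `hv_eval` of B5 at the point `![0, 1]`). The coefficient of the product with `u i` at `(m - w i) * D + (w i * D + r - 1) = m * D + r - 1` is the product of the two coefficients
(`Polynomial.coeff_mul_of_natDegree_le`; `natDegree (u i) ≤ w i * D + r - 1`, `0 < w i * D`). If `m < w i`, then `pderiv i P = 0` (a monomial of weight `m` does
not contain `X_i`).
-/

set_option autoImplicit false

namespace Pool.Agent.Lib.MP_1e3e9c_agK

open Pool.Agent.Lib.MP_1e3e9c_agR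

private theorem K4_top {k : Type} [Field k] [Infinite k] {n D m : ℕ} {w : Fin (n + 1) → ℕ}
    {Q : MvPolynomial (Fin (n + 1)) k} (hQ : Q.IsWeightedHomogeneous w m)
    {f : Fin (n + 1) → Polynomial k} (hd : ∀ i, (f i).natDegree ≤ w i * D) :
    (MvPolynomial.aeval f Q).coeff (m * D) = MvPolynomial.eval (ld w D f) Q := by
  have h := hv_eval hd hQ ![0, 1]
  have h1 : hv w D f ![0, 1] = ld w D f := by
    funext i
    unfold hv ld
    rw [Finset.sum_range_succ, Finset.sum_eq_zero]
    · simp
    · intro j hj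
      have h2 : w i * D - j ≠ 0 := by
        have := Finset.mem_range.1 hj
        omega
      simp [h2]
  have h2 : MP_1e3e9c_agU.ev (fun j : Fin (m * D + 1) => (MvPolynomial.aeval f Q).coeff (j : ℕ)) ![0, 1] =
      (MvPolynomial.aeval f Q).coeff (m * D) := by
    unfold MP_1e3e9c_agU.ev
    rw [Fin.sum_univ_castSucc, Finset.sum_eq_zero]
    · simp
    · intro j _
      have h3 : m * D - (j : ℕ) ≠ 0 := by
        have := j.2
        omega
      simp [h3]
  rw [h1, h2] at h
  exact h.symm

private theorem K4_zero {k : Type} [Field k] {n m : ℕ} {w : Fin (n + 1) → ℕ}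
    {P : MvPolynomial (Fin (n + 1)) k} (hP : P.IsWeightedHomogeneous w m) {i : Fin (n + 1)}
    (h : m < w i) : MvPolynomial.pderiv i P = 0 := by
  classical
  apply MvPolynomial.pderiv_eq_zero_of_notMem_vars
  intro hi
  rw [MvPolynomial.mem_vars_iff_mem_support] at hi
  obtain ⟨α, hα, hiα⟩ := hi
  rw [MvPolynomial.mem_support_iff] at hα
  have h1 := hP hα
  rw [Finsupp.weight_apply, Finsupp.sum_fintype _ _ (fun i => by rw [zero_smul])] at h1
  have h2 : α i • w i ≤ ∑ i, α i • w i :=
    Finset.single_le_sum (f := fun i => α i • w i) (fun j _ => Nat.zero_le _) (Finset.mem_univ i)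
  rw [h1, smul_eq_mul] at h2
  have h3 : 1 ≤ α i := Nat.one_le_iff_ne_zero.2 (Finsupp.mem_support_iff.1 hiα)
  have h4 : w i ≤ α i * w i := Nat.le_mul_of_pos_left _ h3
  omega

theorem top_coeff {k : Type} [Field k] [Infinite k] {n D m r : ℕ} {w : Fin (n + 1) → ℕ}
    (hw : ∀ i, 0 < w i) (hD : 0 < D) {P : MvPolynomial (Fin (n + 1)) k}
    (hP : P.IsWeightedHomogeneous w m) {f : Fin (n + 1) → Polynomial k}
    (hd : ∀ i, (f i).natDegree ≤ w i * D) {u : Fin (n + 1) → Polynomial k}
    (hu : ∀ i, (u i).natDegree < w i * D + r) :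
    (∑ i, MvPolynomial.aeval f (MvPolynomial.pderiv i P) * u i).coeff (m * D + r - 1) =
      ∑ i, gr P (ld w D f) i * (u i).coeff (w i * D + r - 1) := by
  rw [Polynomial.finsetSum_coeff]
  refine Finset.sum_congr rfl fun i _ => ?_
  unfold gr
  by_cases h : w i ≤ m
  · have h1 : (MvPolynomial.pderiv i P).IsWeightedHomogeneous w (m - w i) :=
      hP.pderiv (Nat.sub_add_cancel h)
    have h2 := natDegree_le hd h1
    have h3 : (u i).natDegree ≤ w i * D + r - 1 := by
      have := hu i
      omega
    have h4 : 0 < w i * D := Nat.mul_pos (hw i) hD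
    have h5 : (m - w i) * D + w i * D = m * D := by
      rw [← add_mul, Nat.sub_add_cancel h]
    have h6 : m * D + r - 1 = (m - w i) * D + (w i * D + r - 1) := by omega
    rw [h6, Polynomial.coeff_mul_add_eq_of_natDegree_le h2 h3, K4_top h1 hd]
  · rw [K4_zero hP (not_le.1 h)]
    simp

end Pool.Agent.Lib.MP_1e3e9c_agK
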