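import Mathlib
import Pool.Agent.Lib.MP_1e3e9c_agK.K4

/-!
# MP_1e3e9c_ag, project K, leaf K5: the leading coefficients of the tangent tuples

PROOF. As in K3, at the point infinity: for `u ∈ Us` the vector `(coeff (w i * D - 1) (u i))_i` is in `Kr S (ld w D f)` (`top_coeff`, K4, with `r = 0`: if `m = 0`, `P` is a constant
and all `gr P = 0`). Let `M = ∑_b (w (I b) * D - 1)`, an upper bound for `natDegree (mi s I)` (`Matrix.det_apply`, `natDegree_sum_le`,
`natDegree_prod_le`), `I` fixed. Induction on `M - natDegree (mi s I)`, for all `s` with `mi s I ≠ 0`: if the leading vectors of the `s j` are linearly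
independent, they span `Kr S (ld w D f)` and `e` is a combination of them. Otherwise `∑ λ_j lead(s j) = 0`, `λ_(j₀) = 1`; let `s' = X * ∑ λ_j s j`, which is in
`Us` (its entries have degree `< w i * D`, because the coefficient of `∑ λ_j s j i` at `w i * D - 1` is `0`). Replace `s j₀` by `s'`: `mi (new) I = X * mi s I`, of larger
degree.
-/

set_option autoImplicit false

namespace Pool.Agent.Lib.MP_1e3e9c_agK

open Pool.Agent.Lib.MP_1e3e9c_agR

/-- the coefficients at `w i * D - 1` -/
private noncomputable def K5_lead {k : Type} [Field k] {n : ℕ} (w : Fin (n + 1) → ℕ) (D : ℕ) :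
    (Fin (n + 1) → Polynomial k) →ₗ[k] (Fin (n + 1) → k) where
  toFun u i := (u i).coeff (w i * D - 1)
  map_add' a b := by
    funext i
    simp only [Pi.add_apply, Polynomial.coeff_add]
  map_smul' c a := by
    funext i
    simp only [Pi.smul_apply, Polynomial.coeff_smul, RingHom.id_apply]

private theorem K5_lead_apply {k : Type} [Field k] {n : ℕ} (w : Fin (n + 1) → ℕ) (D : ℕ)
    (u : Fin (n + 1) → Polynomial k) (i : Fin (n + 1)) :
    K5_lead w D u i = (u i).coeff (w i * D - 1) := rfl

private theorem K5_nat {k : Type} [Field k] {p : Polynomial k} {m : ℕ} (hm : 0 < m)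
    (h : p ∈ Polynomial.degreeLT k m) : p.natDegree < m := by
  rw [Polynomial.mem_degreeLT] at h
  by_cases h0 : p = 0
  · rw [h0, Polynomial.natDegree_zero]
    exact hm
  · exact (Polynomial.natDegree_lt_iff_degree_lt h0).2 h

private theorem K5_Kr {k : Type} [Field k] [Infinite k] {n D : ℕ} {w : Fin (n + 1) → ℕ}
    (hw : ∀ i, 0 < w i) (hD : 0 < D) {S : Set (MvPolynomial (Fin (n + 1)) k)}
    (hS : ∀ P ∈ S, ∃ m, P.IsWeightedHomogeneous w m) {f : Fin (n + 1) → Polynomial k}
    (hd : ∀ i, (f i).natDegree ≤ w i * D) {u : Fin (n + 1) → Polynomial k} (hu : u ∈ Us w D S f) :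
    K5_lead w D u ∈ Kr S (ld w D f) := by
  intro P hP
  obtain ⟨m, hm⟩ := hS P hP
  have h1 := top_coeff (r := 0) hw hD hm hd (u := u) (fun i => by
    rw [add_zero]
    exact K5_nat (Nat.mul_pos (hw i) hD) (hu.1 i))
  rw [hu.2 P hP, Polynomial.coeff_zero] at h1
  exact h1.symm

private theorem K5_deg {k : Type} [Field k] {n D N : ℕ} {w : Fin (n + 1) → ℕ}
    (hw : ∀ i, 0 < w i) (hD : 0 < D) {S : Set (MvPolynomial (Fin (n + 1)) k)}
    {f : Fin (n + 1) → Polynomial k} (s : Fin (N + 1) → Fin (n + 1) → Polynomial k)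
    (hs : ∀ j, s j ∈ Us w D S f) (I : Fin (N + 1) → Fin (n + 1)) :
    (mi s I).natDegree ≤ ∑ b, (w (I b) * D - 1) := by
  unfold mi
  rw [Matrix.det_apply]
  refine Polynomial.natDegree_sum_le_of_forall_le _ _ fun σ _ => ?_
  have h1 : ((Equiv.Perm.sign σ) • ∏ a, (Matrix.of fun a b => s b (I a)) (σ a) a).natDegree ≤
      (∏ a, s a (I (σ a))).natDegree := by
    rcases Int.units_eq_one_or (Equiv.Perm.sign σ) with h | h
    · rw [h, one_smul]
      exact le_rfl
    · rw [h, Units.neg_smul, one_smul, Polynomial.natDegree_neg]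
      exact le_rfl
  refine h1.trans ((Polynomial.natDegree_prod_le _ _).trans ?_)
  have h2 : ∑ b, (w (I b) * D - 1) = ∑ a, (w (I (σ a)) * D - 1) :=
    (Equiv.sum_comp σ (fun b => w (I b) * D - 1)).symm
  rw [h2]
  refine Finset.sum_le_sum fun a _ => ?_
  have h3 := K5_nat (Nat.mul_pos (hw (I (σ a))) hD) ((hs a).1 (I (σ a)))
  show (s a (I (σ a))).natDegree ≤ _
  omega

/-- the new tuple -/
private theorem K5_X {k : Type} [Field k] {n D : ℕ} {w : Fin (n + 1) → ℕ}
    {S : Set (MvPolynomial (Fin (n + 1)) k)} {f : Fin (n + 1) → Polynomial k}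
    {t : Fin (n + 1) → Polynomial k} (ht : t ∈ Us w D S f) (h0 : K5_lead w D t = 0) :
    (fun i => Polynomial.X * t i) ∈ Us w D S f := by
  refine ⟨fun i => ?_, fun P hP => ?_⟩
  · have h1 := ht.1 i
    have h2 : (t i).coeff (w i * D - 1) = 0 := congrFun h0 i
    show Polynomial.X * t i ∈ Polynomial.degreeLT k (w i * D)
    rw [Polynomial.mem_degreeLT, Polynomial.degree_lt_iff_coeff_zero] at h1 ⊢
    intro m hm
    rcases m with _ | m
    · rw [Polynomial.mul_coeff_zero, Polynomial.coeff_X_zero, zero_mul]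
    · rw [Polynomial.coeff_X_mul]
      rcases Nat.lt_or_ge m (w i * D) with h3 | h3
      · have h4 : m = w i * D - 1 := by omega
        rw [h4]
        exact h2
      · exact h1 m h3
  · have h1 := ht.2 P hP
    have h2 : ∑ i, MvPolynomial.aeval f (MvPolynomial.pderiv i P) * (Polynomial.X * t i) =
        Polynomial.X * ∑ i, MvPolynomial.aeval f (MvPolynomial.pderiv i P) * t i := by
      rw [Finset.mul_sum]
      exact Finset.sum_congr rfl fun i _ => by ring
    rw [h2, h1, mul_zero]

/-- the determinant with one new column -/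
private theorem K5_det {k : Type} [Field k] {n N : ℕ} (s : Fin (N + 1) → Fin (n + 1) → Polynomial k)
    (I : Fin (N + 1) → Fin (n + 1)) (j₀ : Fin (N + 1)) (g : Fin (N + 1) → k) :
    mi (Function.update s j₀ (fun i => Polynomial.X * (∑ j, g j • s j) i)) I =
      Polynomial.X * (Polynomial.C (g j₀) * mi s I) := by
  have h1 : (Matrix.of fun a b => Function.update s j₀ (fun i => Polynomial.X * (∑ j, g j • s j) i) b (I a)) =
      (Matrix.of fun a b => s b (I a)).updateCol j₀
        ((Polynomial.X : Polynomial k) • fun a => ∑ j, Polynomial.C (g j) • (Matrix.of fun a b => s b (I a)) a j) := by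
    ext1 a b
    rw [Matrix.updateCol_apply]
    by_cases hb : b = j₀
    · rw [if_pos hb, hb]
      simp only [Matrix.of_apply, Function.update_self, Pi.smul_apply, Finset.sum_apply, smul_eq_mul,
        Polynomial.smul_eq_C_mul]
    · rw [if_neg hb]
      simp only [Matrix.of_apply, Function.update_of_ne hb]
  unfold mi
  rw [h1, Matrix.det_updateCol_smul, Matrix.det_updateCol_sum, smul_eq_mul]

private theorem K5_step {k : Type} [Field k] [Infinite k] {n D N : ℕ} {w : Fin (n + 1) → ℕ}
    (hw : ∀ i, 0 < w i) (hD : 0 < D) {S : Set (MvPolynomial (Fin (n + 1)) k)}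
    (hS : ∀ P ∈ S, ∃ m, P.IsWeightedHomogeneous w m) {f : Fin (n + 1) → Polynomial k}
    (hd : ∀ i, (f i).natDegree ≤ w i * D) (I : Fin (N + 1) → Fin (n + 1))
    (hk : Module.finrank k (Kr S (ld w D f)) ≤ N + 1)
    (e : Fin (n + 1) → k) (he : e ∈ Kr S (ld w D f))
    (s : Fin (N + 1) → Fin (n + 1) → Polynomial k) (hs : ∀ j, s j ∈ Us w D S f) (hne : mi s I ≠ 0) :
    (∃ u ∈ Us w D S f, ∀ i, (u i).coeff (w i * D - 1) = e i) ∨
      ∃ s' : Fin (N + 1) → Fin (n + 1) → Polynomial k, (∀ j, s' j ∈ Us w D S f) ∧ mi s' I ≠ 0 ∧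
        (mi s' I).natDegree = (mi s I).natDegree + 1 := by
  by_cases hli : LinearIndependent k fun j => K5_lead w D (s j)
  · left
    obtain ⟨b, hb⟩ : ∃ b : Fin (N + 1) → Kr S (ld w D f), b = fun j =>
      ⟨K5_lead w D (s j), K5_Kr hw hD hS hd (hs j)⟩ := ⟨_, rfl⟩
    have hbl : LinearIndependent k b := by
      refine LinearIndependent.of_comp (Kr S (ld w D f)).subtype ?_
      have h1 : ((Kr S (ld w D f)).subtype ∘ b) = fun j => K5_lead w D (s j) := by
        rw [hb]
        rfl
      rw [h1]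
      exact hli
    have hcard : Fintype.card (Fin (N + 1)) = Module.finrank k (Kr S (ld w D f)) := by
      refine le_antisymm hbl.fintype_card_le_finrank ?_
      rw [Fintype.card_fin]
      exact hk
    have hspan := hbl.span_eq_top_of_card_eq_finrank' hcard
    have hmem : (⟨e, he⟩ : Kr S (ld w D f)) ∈ Submodule.span k (Set.range b) := by
      rw [hspan]
      exact Submodule.mem_top
    obtain ⟨c, hc⟩ := (Submodule.mem_span_range_iff_exists_fun k).1 hmem
    refine ⟨∑ j, c j • s j, Submodule.sum_mem _ fun j _ => Submodule.smul_mem _ _ (hs j), fun i => ?_⟩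
    have h1 : ∑ j, c j • K5_lead w D (s j) = e := by
      have h2 := congrArg (Kr S (ld w D f)).subtype hc
      rw [map_sum, hb] at h2
      exact h2
    have h2 : K5_lead w D (∑ j, c j • s j) = e := by
      rw [map_sum, ← h1]
      exact Finset.sum_congr rfl fun j _ => map_smul _ _ _
    exact congrFun h2 i
  · right
    rw [Fintype.not_linearIndependent_iff] at hli
    obtain ⟨g, hg, j₀, hj₀⟩ := hli
    have ht : (∑ j, g j • s j) ∈ Us w D S f :=
      Submodule.sum_mem _ fun j _ => Submodule.smul_mem _ _ (hs j)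
    have h0 : K5_lead w D (∑ j, g j • s j) = 0 := by
      rw [map_sum, ← hg]
      exact Finset.sum_congr rfl fun j _ => map_smul _ _ _
    have hdet := K5_det s I j₀ g
    have hC : Polynomial.C (g j₀) ≠ 0 := by
      rw [Ne, Polynomial.C_eq_zero]
      exact hj₀
    refine ⟨Function.update s j₀ (fun i => Polynomial.X * (∑ j, g j • s j) i), fun j => ?_, ?_, ?_⟩
    · by_cases hj : j = j₀
      · rw [hj, Function.update_self]
        exact K5_X ht h0
      · rw [Function.update_of_ne hj]
        exact hs j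
    · rw [hdet]
      exact mul_ne_zero Polynomial.X_ne_zero (mul_ne_zero hC hne)
    · rw [hdet, Polynomial.natDegree_X_mul (mul_ne_zero hC hne), Polynomial.natDegree_C_mul hj₀]

private theorem K5_main {k : Type} [Field k] [Infinite k] {n D N : ℕ} {w : Fin (n + 1) → ℕ}
    (hw : ∀ i, 0 < w i) (hD : 0 < D) {S : Set (MvPolynomial (Fin (n + 1)) k)}
    (hS : ∀ P ∈ S, ∃ m, P.IsWeightedHomogeneous w m) {f : Fin (n + 1) → Polynomial k}
    (hd : ∀ i, (f i).natDegree ≤ w i * D) (I : Fin (N + 1) → Fin (n + 1))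
    (hk : Module.finrank k (Kr S (ld w D f)) ≤ N + 1)
    (e : Fin (n + 1) → k) (he : e ∈ Kr S (ld w D f)) (d : ℕ) :
    ∀ s : Fin (N + 1) → Fin (n + 1) → Polynomial k, (∀ j, s j ∈ Us w D S f) → mi s I ≠ 0 →
      (∑ b, (w (I b) * D - 1)) - (mi s I).natDegree ≤ d →
      ∃ u ∈ Us w D S f, ∀ i, (u i).coeff (w i * D - 1) = e i := by
  induction d with
  | zero =>
    intro s hs hne hle
    rcases K5_step hw hD hS hd I hk e he s hs hne with h | ⟨s', hs', hne', h⟩
    · exact h
    · have h1 := K5_deg hw hD s' hs' I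
      omega
  | succ d ih =>
    intro s hs hne hle
    rcases K5_step hw hD hS hd I hk e he s hs hne with h | ⟨s', hs', hne', h⟩
    · exact h
    · have h1 := K5_deg hw hD s' hs' I
      exact ih s' hs' hne' (by omega)

theorem ld_surj {k : Type} [Field k] [Infinite k] {n D N : ℕ} {w : Fin (n + 1) → ℕ}
    (hw : ∀ i, 0 < w i) (hD : 0 < D) {S : Set (MvPolynomial (Fin (n + 1)) k)}
    (hS : ∀ P ∈ S, ∃ m, P.IsWeightedHomogeneous w m) {f : Fin (n + 1) → Polynomial k}
    (hd : ∀ i, (f i).natDegree ≤ w i * D)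
    (s : Fin (N + 1) → Fin (n + 1) → Polynomial k) (hs : ∀ j, s j ∈ Us w D S f)
    (hne : ∃ I, mi s I ≠ 0) (hk : Module.finrank k (Kr S (ld w D f)) ≤ N + 1)
    (e : Fin (n + 1) → k) (he : e ∈ Kr S (ld w D f)) :
    ∃ u ∈ Us w D S f, ∀ i, (u i).coeff (w i * D - 1) = e i := by
  obtain ⟨I, hI⟩ := hne
  exact K5_main hw hD hS hd I hk e he _ s hs hI le_rfl

end Pool.Agent.Lib.MP_1e3e9c_agK
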