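import Mathlib
import Pool.Agent.Lib.MP_1e3e9c_agK.KDefs

/-!
# MP_1e3e9c_ag, project K, leaf K6: many tangent tuples

PROOF. Let `L(s)` be the `k[t]`-span of the `s j` (as a `k`-subspace). CLAIM (induction on `q`, for all `s` in `Us` with `mi s I ≠ 0` for some `I` and
`X^q ∣ mi s I` for all `I`): there are `t_1, .., t_q ∈ Us` such that no nonzero `k`-combination of them is in `L(s)`. `q = 0`: nothing.
`q + 1`: the vectors `s j (0)` are linearly dependent: otherwise some minor of them is not `0` (`LinearIndependent` of `N + 1` vectors of `k^(n+1)`: as in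
`ind_generic`, X8.lean of project R), but the minors of the `s j (0)` are the values at `0` of the `mi s I`. Let `∑ λ_j s j (0) = 0`, `λ_(j₀) = 1`, and let
`t_0 = (∑ λ_j s j) / X` (in `Us`: degree, `Tg`). Let `s'` be `s` with `s j₀` replaced by `t_0`: `X * mi s' I = mi s I` for all `I`, so `X^q ∣ mi s' I`, `mi s' I ≠ 0` for some
`I`; `L(s) ≤ L(s')` (`s j₀ = X t_0 - ∑_(j ≠ j₀) λ_j s j`), `t_0 ∈ L(s')`, and `t_0 ∉ L(s)`: if `t_0 = ∑ a_j s j`, then
`∑ (X a_j - λ_j) s j = 0`, so `X a_(j₀) = 1` because the `s j` are independent over `k[t]` (`mi s I ≠ 0`: `Matrix.eq_zero_of_mulVec_eq_zero`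
or Cramer): contradiction. Take `t_1, .., t_q` for `s'`: a combination `μ_0 t_0 + ∑ μ_j t_j ∈ L(s) ≤ L(s')` gives `∑ μ_j t_j ∈ L(s')`, so `μ_j = 0`,
then `μ_0 t_0 ∈ L(s)`, `μ_0 = 0`. END: the `s j` and the `t_j` together are linearly independent over `k`; index them by `Fin (q + N + 1)`.
-/

set_option autoImplicit false

namespace Pool.Agent.Lib.MP_1e3e9c_agK

open Pool.Agent.Lib.MP_1e3e9c_agR

private theorem K6_li {k : Type} [Field k] {n N : ℕ} (s : Fin (N + 1) → Fin (n + 1) → Polynomial k)
    (hne : ∃ I, mi s I ≠ 0) : LinearIndependent (Polynomial k) s := by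
  obtain ⟨I, hI⟩ := hne
  have h2 : (Matrix.of fun b a : Fin (N + 1) => s b (I a)).det ≠ 0 := by
    rw [← Matrix.det_transpose]
    exact hI
  have h3 := Matrix.linearIndependent_rows_of_det_ne_zero h2
  exact LinearIndependent.of_comp (LinearMap.funLeft (Polynomial k) (Polynomial k) I) h3

private theorem K6_dep {k : Type} [Field k] {n N : ℕ} (s : Fin (N + 1) → Fin (n + 1) → Polynomial k)
    (hq : ∀ I, Polynomial.X ∣ mi s I) : ¬ LinearIndependent k fun j i => (s j i).eval 0 := by
  classical
  intro h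
  obtain ⟨M, hM⟩ : ∃ M : Matrix (Fin (N + 1)) (Fin (n + 1)) k,
      M = fun j i => (s j i).eval 0 := ⟨_, rfl⟩
  have hrow : LinearIndependent k M.row := by
    rw [hM]
    exact h
  have hrank : M.rank = N + 1 := by
    rw [hrow.rank_matrix, Fintype.card_fin]
  obtain ⟨κ, e, hinj, hspan, hli⟩ := exists_linearIndependent' k M.col
  have hfin : Finite κ := Finite.of_injective e hinj
  have hft : Fintype κ := Fintype.ofFinite κ
  have hcard : Fintype.card κ = Fintype.card (Fin (N + 1)) := by
    rw [Fintype.card_fin, ← hrank, Matrix.rank_eq_finrank_span_cols, ← hspan,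
      finrank_span_eq_card hli]
  obtain ⟨σ⟩ := Fintype.card_eq.1 hcard
  have hli' : LinearIndependent k ((M.col ∘ e) ∘ σ.symm) := hli.comp _ σ.symm.injective
  have hN : IsUnit (M.submatrix id (e ∘ σ.symm)) :=
    Matrix.linearIndependent_cols_iff_isUnit.1 hli'
  have hdet : (M.submatrix id (e ∘ σ.symm)).det ≠ 0 :=
    ((Matrix.isUnit_iff_isUnit_det _).1 hN).ne_zero
  apply hdet
  have h2 := hq (e ∘ σ.symm)
  rw [Polynomial.X_dvd_iff, Polynomial.coeff_zero_eq_eval_zero] at h2
  have h3 : (M.submatrix id (e ∘ σ.symm)).det = (Polynomial.evalRingHom (0 : k)) (mi s (e ∘ σ.symm)) := by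
    rw [mi, RingHom.map_det, ← Matrix.det_transpose]
    rw [hM]
    rfl
  rw [h3]
  exact h2

private theorem K6_claim {k : Type} [Field k] {n D N : ℕ} {w : Fin (n + 1) → ℕ}
    {S : Set (MvPolynomial (Fin (n + 1)) k)} {f : Fin (n + 1) → Polynomial k} (q : ℕ) :
    ∀ s : Fin (N + 1) → Fin (n + 1) → Polynomial k, (∀ j, s j ∈ Us w D S f) →
    (∃ I, mi s I ≠ 0) → (∀ I, Polynomial.X ^ q ∣ mi s I) →
    ∃ t : Fin q → Fin (n + 1) → Polynomial k, (∀ j, t j ∈ Us w D S f) ∧
      ∀ μ : Fin q → k, (∑ j, μ j • t j) ∈ Submodule.span (Polynomial k) (Set.range s) → μ = 0 := by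
  classical
  induction q with
  | zero =>
    intro s _ _ _
    exact ⟨Fin.elim0, fun j => j.elim0, fun μ _ => funext fun j => j.elim0⟩
  | succ q ih =>
    intro s hs hne hq
    have hdep := K6_dep s fun I => (dvd_pow_self _ (Nat.succ_ne_zero q)).trans (hq I)
    obtain ⟨g, hg, j₀, hj₀⟩ := Fintype.not_linearIndependent_iff.1 hdep
    obtain ⟨c, hc⟩ : ∃ c : Fin (N + 1) → k, c = fun j => (g j₀)⁻¹ * g j := ⟨_, rfl⟩
    have hc1 : c j₀ = 1 := by
      rw [hc]
      exact inv_mul_cancel₀ hj₀
    have hc0 : ∀ i, ∑ j, c j * (s j i).coeff 0 = 0 := by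
      intro i
      have h1 := congrFun hg i
      rw [Finset.sum_apply] at h1
      have h2 : ∑ j, c j * (s j i).coeff 0 = (g j₀)⁻¹ * ∑ j, (g j • fun i => (s j i).eval 0) i := by
        rw [Finset.mul_sum]
        refine Finset.sum_congr rfl fun j _ => ?_
        rw [hc, Pi.smul_apply, smul_eq_mul, Polynomial.coeff_zero_eq_eval_zero]
        ring
      rw [h2, h1]
      simp
    obtain ⟨r, hr⟩ : ∃ r : Fin (n + 1) → Polynomial k, r = ∑ j, c j • s j := ⟨_, rfl⟩
    have hrU : r ∈ Us w D S f := by
      rw [hr]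
      exact Submodule.sum_mem _ fun j _ => Submodule.smul_mem _ _ (hs j)
    have hri : ∀ i, r i = ∑ j, Polynomial.C (c j) * s j i := by
      intro i
      rw [hr, Finset.sum_apply]
      refine Finset.sum_congr rfl fun j _ => ?_
      rw [Pi.smul_apply, Polynomial.smul_eq_C_mul]
    have hr0 : ∀ i, (r i).coeff 0 = 0 := by
      intro i
      rw [hri, Polynomial.finsetSum_coeff, ← hc0 i]
      refine Finset.sum_congr rfl fun j _ => ?_
      rw [Polynomial.coeff_C_mul]
    obtain ⟨t0, ht0⟩ : ∃ t0 : Fin (n + 1) → Polynomial k, t0 = fun i => (r i).divX := ⟨_, rfl⟩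
    have hX : ∀ i, Polynomial.X * t0 i = r i := by
      intro i
      have h1 := Polynomial.divX_mul_X_add (r i)
      rw [hr0 i, Polynomial.C_0, add_zero] at h1
      rw [ht0, mul_comm]
      exact h1
    have hXr : (Polynomial.X : Polynomial k) • t0 = ∑ j, Polynomial.C (c j) • s j := by
      funext i
      rw [Pi.smul_apply, smul_eq_mul, hX i, hri i, Finset.sum_apply]
      rfl
    have ht0U : t0 ∈ Us w D S f := by
      refine ⟨fun i => ?_, fun P hP => ?_⟩
      · rw [Polynomial.mem_degreeLT, Polynomial.degree_lt_iff_coeff_zero]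
        intro m hm
        have h1 := hrU.1 i
        rw [Polynomial.mem_degreeLT, Polynomial.degree_lt_iff_coeff_zero] at h1
        rw [ht0]
        simp only [Polynomial.coeff_divX]
        exact h1 (m + 1) (by omega)
      · have h1 := hrU.2 P hP
        have h2 : (Polynomial.X : Polynomial k) * ∑ i, MvPolynomial.aeval f (MvPolynomial.pderiv i P) * t0 i = 0 := by
          rw [← h1, Finset.mul_sum]
          refine Finset.sum_congr rfl fun i _ => ?_
          rw [← hX i]
          ring
        exact (mul_eq_zero.1 h2).resolve_left Polynomial.X_ne_zero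
    obtain ⟨s', hs'⟩ : ∃ s' : Fin (N + 1) → Fin (n + 1) → Polynomial k, s' = Function.update s j₀ t0 :=
      ⟨_, rfl⟩
    have hs'0 : s' j₀ = t0 := by rw [hs', Function.update_self]
    have hs'1 : ∀ j, j ≠ j₀ → s' j = s j := fun j hj => by rw [hs', Function.update_of_ne hj]
    have hs'U : ∀ j, s' j ∈ Us w D S f := by
      intro j
      by_cases hj : j = j₀
      · rw [hj, hs'0]
        exact ht0U
      · rw [hs'1 j hj]
        exact hs j
    have hmi : ∀ I, Polynomial.X * mi s' I = mi s I := by
      intro I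
      have h1 : (Matrix.of fun a b => s' b (I a)) =
          (Matrix.of fun a b => s b (I a)).updateCol j₀ (fun a => t0 (I a)) := by
        ext1 a b
        by_cases hb : b = j₀
        · rw [hb, Matrix.updateCol_self, Matrix.of_apply, hs'0]
        · rw [Matrix.updateCol_ne hb, Matrix.of_apply, Matrix.of_apply, hs'1 b hb]
      have h2 := Matrix.det_updateCol_sum (Matrix.of fun a b : Fin (N + 1) => s b (I a)) j₀
        (fun j => Polynomial.C (c j))
      rw [hc1, Polynomial.C_1, one_smul] at h2
      rw [mi, mi, h1, ← Matrix.det_updateCol_smul, ← h2]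
      apply congrArg
      apply congrArg
      funext a
      rw [Pi.smul_apply, smul_eq_mul, hX, hri]
      rfl
    have hne' : ∃ I, mi s' I ≠ 0 := by
      obtain ⟨I, hI⟩ := hne
      refine ⟨I, fun h => hI ?_⟩
      rw [← hmi I, h, mul_zero]
    have hq' : ∀ I, Polynomial.X ^ q ∣ mi s' I := by
      intro I
      have h1 := hq I
      rw [← hmi I, pow_succ'] at h1
      exact (mul_dvd_mul_iff_left Polynomial.X_ne_zero).1 h1
    obtain ⟨t', ht'U, ht'⟩ := ih s' hs'U hne' hq'
    have hmem : ∀ j, s' j ∈ Submodule.span (Polynomial k) (Set.range s') :=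
      fun j => Submodule.subset_span ⟨j, rfl⟩
    have ht0m : t0 ∈ Submodule.span (Polynomial k) (Set.range s') := by
      have h1 := hmem j₀
      rw [hs'0] at h1
      exact h1
    have hle : Submodule.span (Polynomial k) (Set.range s) ≤ Submodule.span (Polynomial k) (Set.range s') := by
      refine Submodule.span_le.2 ?_
      rintro _ ⟨j, rfl⟩
      by_cases hj : j = j₀
      · have h1 : s j₀ = (Polynomial.X : Polynomial k) • t0 - ∑ j ∈ Finset.univ.erase j₀, Polynomial.C (c j) • s j := by
          rw [hXr, ← Finset.add_sum_erase _ _ (Finset.mem_univ j₀), hc1, Polynomial.C_1, one_smul,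
            add_sub_cancel_right]
        rw [hj, h1]
        refine Submodule.sub_mem _ (Submodule.smul_mem _ _ ht0m) (Submodule.sum_mem _ fun i hi => ?_)
        refine Submodule.smul_mem _ _ ?_
        rw [← hs'1 i (Finset.ne_of_mem_erase hi)]
        exact hmem i
      · rw [← hs'1 j hj]
        exact hmem j
    have hsm : ∀ (a : k) (v : Fin (n + 1) → Polynomial k), a • v = Polynomial.C a • v := by
      intro a v
      funext i
      rw [Pi.smul_apply, Pi.smul_apply, Polynomial.smul_eq_C_mul, smul_eq_mul]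
    refine ⟨Fin.cons t0 t', fun j => Fin.cases ht0U ht'U j, fun μ hμ => ?_⟩
    rw [Fin.sum_univ_succ] at hμ
    simp only [Fin.cons_zero, Fin.cons_succ] at hμ
    have h1 : ∑ j, μ (Fin.succ j) • t' j ∈ Submodule.span (Polynomial k) (Set.range s') := by
      have h2 := Submodule.sub_mem _ (hle hμ) (Submodule.smul_mem _ (Polynomial.C (μ 0)) ht0m)
      rw [← hsm, add_sub_cancel_left] at h2
      exact h2
    have h2 := ht' _ h1
    have h3 : ∀ j, μ (Fin.succ j) = 0 := fun j => congrFun h2 j
    have h4 : μ 0 = 0 := by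
      simp only [h3, zero_smul, Finset.sum_const_zero, add_zero] at hμ
      obtain ⟨a, ha⟩ := (Submodule.mem_span_range_iff_exists_fun (Polynomial k)).1 hμ
      have h5 : ∑ j, (Polynomial.X * a j - Polynomial.C (μ 0) * Polynomial.C (c j)) • s j = 0 := by
        have h6 : ∑ j, (Polynomial.X * a j - Polynomial.C (μ 0) * Polynomial.C (c j)) • s j =
            (Polynomial.X : Polynomial k) • (∑ j, a j • s j) - Polynomial.C (μ 0) • ∑ j, Polynomial.C (c j) • s j := by
          rw [Finset.smul_sum, Finset.smul_sum, ← Finset.sum_sub_distrib]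
          refine Finset.sum_congr rfl fun j _ => ?_
          rw [sub_smul, mul_smul, mul_smul]
        rw [h6, ha, hsm, ← hXr, smul_comm, sub_self]
      have h7 := Fintype.linearIndependent_iff.1 (K6_li s hne) _ h5 j₀
      rw [hc1, Polynomial.C_1, mul_one] at h7
      have h8 := congrArg (fun p : Polynomial k => p.coeff 0) h7
      simp only [Polynomial.coeff_sub, Polynomial.coeff_X_mul_zero, Polynomial.coeff_C_zero,
        Polynomial.coeff_zero, zero_sub, neg_eq_zero] at h8
      exact h8
    funext j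
    exact Fin.cases h4 h3 j

theorem many {k : Type} [Field k] {n D N q : ℕ} {w : Fin (n + 1) → ℕ}
    {S : Set (MvPolynomial (Fin (n + 1)) k)} {f : Fin (n + 1) → Polynomial k}
    (s : Fin (N + 1) → Fin (n + 1) → Polynomial k) (hs : ∀ j, s j ∈ Us w D S f)
    (hne : ∃ I, mi s I ≠ 0) (hq : ∀ I, Polynomial.X ^ q ∣ mi s I) :
    ∃ u : Fin (q + N + 1) → Fin (n + 1) → Polynomial k, (∀ j, u j ∈ Us w D S f) ∧
      LinearIndependent k u := by
  obtain ⟨t, htU, ht⟩ := K6_claim q s hs hne hq
  have hsm : ∀ (a : k) (v : Fin (n + 1) → Polynomial k), a • v = Polynomial.C a • v := by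
    intro a v
    funext i
    rw [Pi.smul_apply, Pi.smul_apply, Polynomial.smul_eq_C_mul, smul_eq_mul]
  refine ⟨(Fin.append t s : Fin (q + (N + 1)) → Fin (n + 1) → Polynomial k), ?_, ?_⟩
  · have hA : ∀ j : Fin (q + (N + 1)), Fin.append t s j ∈ Us w D S f := by
      intro j
      refine Fin.addCases (fun i => ?_) (fun i => ?_) j
      · rw [Fin.append_left]
        exact htU i
      · rw [Fin.append_right]
        exact hs i
    exact hA
  · have hmain : LinearIndependent k (Fin.append t s : Fin (q + (N + 1)) → Fin (n + 1) → Polynomial k) := by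
      rw [Fintype.linearIndependent_iff]
      intro g hg
      rw [Fin.sum_univ_add] at hg
      simp only [Fin.append_left, Fin.append_right] at hg
      have h1 : ∑ i, g (Fin.castAdd (N + 1) i) • t i ∈ Submodule.span (Polynomial k) (Set.range s) := by
        rw [eq_neg_of_add_eq_zero_left hg]
        refine Submodule.neg_mem _ (Submodule.sum_mem _ fun j _ => ?_)
        rw [hsm]
        exact Submodule.smul_mem _ _ (Submodule.subset_span ⟨j, rfl⟩)
      have h2 := ht _ h1
      have h3 : ∀ i, g (Fin.castAdd (N + 1) i) = 0 := fun i => congrFun h2 i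
      simp only [h3, zero_smul, Finset.sum_const_zero, zero_add] at hg
      have h4 : ∑ j, Polynomial.C (g (Fin.natAdd q j)) • s j = 0 := by
        rw [← hg]
        exact Finset.sum_congr rfl fun j _ => (hsm _ _).symm
      have h5 := Fintype.linearIndependent_iff.1 (K6_li s hne) _ h4
      intro i
      refine Fin.addCases (fun a => h3 a) (fun a => ?_) i
      exact Polynomial.C_eq_zero.1 (h5 a)
    exact hmain

end Pool.Agent.Lib.MP_1e3e9c_agK
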