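import Mathlib
import Pool.Agent.Lib.MP_1e3e9c_agK.KDefs

/-!
# MP_1e3e9c_ag, project K: the tangent space at a smooth point
-/

set_option autoImplicit false

namespace Pool.Agent.Lib.MP_1e3e9c_agK

open Pool.Agent.Lib.MP_1e3e9c_agR

theorem kr_bound {k : Type} [Field k] {n c N : ℕ} (hc : c + N = n)
    {S : Set (MvPolynomial (Fin (n + 1)) k)} {v : Fin (n + 1) → k}
    (P : Fin c → MvPolynomial (Fin (n + 1)) k) (hP : ∀ l, P l ∈ S)
    (h : LinearIndependent k fun l => gr (P l) v) : Module.finrank k (Kr S v) ≤ N + 1 := by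
  classical
  obtain ⟨M, hM⟩ : ∃ M : Matrix (Fin c) (Fin (n + 1)) k, M = fun l => gr (P l) v := ⟨_, rfl⟩
  have hle : Kr S v ≤ LinearMap.ker M.mulVecLin := by
    intro e he
    rw [LinearMap.mem_ker]
    funext l
    have h1 := he (P l) (hP l)
    rw [Matrix.mulVecLin_apply, hM]
    exact h1
  have h1 := Submodule.finrank_mono hle
  have hrow : LinearIndependent k M.row := by
    rw [hM]
    exact h
  have h2 : M.rank = c := by
    rw [hrow.rank_matrix, Fintype.card_fin]
  have h3 := LinearMap.finrank_range_add_finrank_ker M.mulVecLin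
  have h4 : Module.finrank k (LinearMap.range M.mulVecLin) = c := h2
  rw [h4, Module.finrank_fin_fun] at h3
  omega

end Pool.Agent.Lib.MP_1e3e9c_agK
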