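import Mathlib
import Pool.Agent.Lib.MP_1e3e9c_agK.KB1
import Pool.Agent.Lib.MP_1e3e9c_agK.K3
import Pool.Agent.Lib.MP_1e3e9c_agK.K5
import Pool.Agent.Lib.MP_1e3e9c_agK.K6

/-!
# MP_1e3e9c_ag, project K: the values of the tangent tuples along a smooth curve
-/

set_option autoImplicit false

namespace Pool.Agent.Lib.MP_1e3e9c_agK

open Pool.Agent.Lib.MP_1e3e9c_agR

theorem mem_us {k : Type} [Field k] {n D : ℕ} {w : Fin (n + 1) → ℕ} (hw : ∀ i, 0 < w i)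
    (hD : 0 < D) {S : Set (MvPolynomial (Fin (n + 1)) k)} {p u : Fin (n + 1) → Polynomial k} :
    u ∈ Us w D S p ↔ (∀ i, (u i).natDegree < w i * D) ∧ Tg S p u := by
  have h1 : ∀ i, u i ∈ Polynomial.degreeLT k (w i * D) ↔ (u i).natDegree < w i * D := by
    intro i
    have h2 : 0 < w i * D := Nat.mul_pos (hw i) hD
    rw [Polynomial.mem_degreeLT]
    constructor
    · intro h
      by_cases h0 : u i = 0
      · rw [h0, Polynomial.natDegree_zero]
        exact h2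
      · exact (Polynomial.natDegree_lt_iff_degree_lt h0).2 h
    · intro h
      exact lt_of_le_of_lt Polynomial.degree_le_natDegree (by exact_mod_cast h)
  constructor
  · rintro ⟨h, h'⟩
    exact ⟨fun i => (h1 i).1 (h i), h'⟩
  · rintro ⟨h, h'⟩
    exact ⟨fun i => (h1 i).2 (h i), h'⟩

theorem vals {k : Type} [Field k] {n c N D : ℕ} (hc : c + N = n) {w : Fin (n + 1) → ℕ}
    (hw : ∀ i, 0 < w i) (hD : 0 < D) {S : Set (MvPolynomial (Fin (n + 1)) k)}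
    {p : Fin (n + 1) → Polynomial k} {a : k}
    (hsm : ∃ P : Fin c → MvPolynomial (Fin (n + 1)) k, (∀ l, P l ∈ S) ∧
      LinearIndependent k fun l => gr (P l) (val p a))
    (s : Fin (N + 1) → Fin (n + 1) → Polynomial k) (hs : ∀ j i, (s j i).natDegree < w i * D)
    (ht : ∀ j, Tg S p (s j)) (hne : ∃ I, mi s I ≠ 0) (κ : Fin (n + 1) → k)
    (hκ : ∀ P ∈ S, ∑ i, MvPolynomial.eval (val p a) (MvPolynomial.pderiv i P) * κ i = 0) :
    ∃ u : Fin (n + 1) → Polynomial k, ((∀ i, (u i).natDegree < w i * D) ∧ Tg S p u) ∧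
      val u a = κ := by
  obtain ⟨P, hP, hli⟩ := hsm
  obtain ⟨u, hu, hv⟩ := val_surj s (fun j => (mem_us hw hD).2 ⟨hs j, ht j⟩) hne a
    (kr_bound hc P hP hli) κ hκ
  exact ⟨u, (mem_us hw hD).1 hu, funext hv⟩

theorem valsInf {k : Type} [Field k] [Infinite k] {n c N D : ℕ} (hc : c + N = n)
    {w : Fin (n + 1) → ℕ} (hw : ∀ i, 0 < w i) (hD : 0 < D)
    {S : Set (MvPolynomial (Fin (n + 1)) k)} (hS : ∀ P ∈ S, ∃ m, P.IsWeightedHomogeneous w m)
    {p : Fin (n + 1) → Polynomial k} (hp : ∀ i, (p i).natDegree ≤ w i * D)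
    (hsm : ∃ P : Fin c → MvPolynomial (Fin (n + 1)) k, (∀ l, P l ∈ S) ∧
      LinearIndependent k fun l => gr (P l) fun i => (p i).coeff (w i * D))
    (s : Fin (N + 1) → Fin (n + 1) → Polynomial k) (hs : ∀ j i, (s j i).natDegree < w i * D)
    (ht : ∀ j, Tg S p (s j)) (hne : ∃ I, mi s I ≠ 0) (κ : Fin (n + 1) → k)
    (hκ : ∀ P ∈ S, ∑ i, MvPolynomial.eval (fun i => (p i).coeff (w i * D))
      (MvPolynomial.pderiv i P) * κ i = 0) :
    ∃ u : Fin (n + 1) → Polynomial k, ((∀ i, (u i).natDegree < w i * D) ∧ Tg S p u) ∧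
      ∀ i, (u i).coeff (w i * D - 1) = κ i := by
  obtain ⟨P, hP, hli⟩ := hsm
  obtain ⟨u, hu, hv⟩ := ld_surj hw hD hS hp s (fun j => (mem_us hw hD).2 ⟨hs j, ht j⟩) hne
    (kr_bound hc P hP hli) κ hκ
  exact ⟨u, (mem_us hw hD).1 hu, hv⟩

theorem many' {k : Type} [Field k] {n D N q : ℕ} {w : Fin (n + 1) → ℕ} (hw : ∀ i, 0 < w i)
    (hD : 0 < D) {S : Set (MvPolynomial (Fin (n + 1)) k)} {p : Fin (n + 1) → Polynomial k}
    (s : Fin (N + 1) → Fin (n + 1) → Polynomial k) (hs : ∀ j i, (s j i).natDegree < w i * D)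
    (ht : ∀ j, Tg S p (s j)) (hne : ∃ I, mi s I ≠ 0) (hq : ∀ I, Polynomial.X ^ q ∣ mi s I) :
    ∃ u : Fin (q + N + 1) → Fin (n + 1) → Polynomial k,
      (∀ j, (∀ i, (u j i).natDegree < w i * D) ∧ Tg S p (u j)) ∧ LinearIndependent k u := by
  obtain ⟨u, hu, hli⟩ := many s (fun j => (mem_us hw hD).2 ⟨hs j, ht j⟩) hne hq
  exact ⟨u, fun j => (mem_us hw hD).1 (hu j), hli⟩

end Pool.Agent.Lib.MP_1e3e9c_agK
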